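import Pool.Agent.Y234.GS.StmB

/-!
# Project GS: finitely many functionals on the top cohomology (job FG)
-/

set_option autoImplicit false
set_option linter.unusedSectionVars false

namespace Pool.Agent.Y864.GS

open Pool.Agent.Y234.GS MvPolynomial

section sec

variable {ι L O : Type} [CommRing O] [Field L] [Algebra O L]
variable {W : Submodule O L} {f : ι → L}

private theorem prod_mem (hf : ∀ i, f i ∈ W) (S : Finset ι) : ∏ i ∈ S, f i ∈ W ^ S.card := by
  classical
  induction S using Finset.induction_on with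
  | empty => simpa using Submodule.one_le.1 (le_of_eq (pow_zero W).symm)
  | insert a S ha ih =>
    rw [Finset.prod_insert ha, Finset.card_insert_of_notMem ha, pow_succ']
    exact Submodule.mul_mem_mul (hf a) ih

private theorem sec_raise (hf : ∀ i, f i ∈ W) {S : Finset ι} {a : L} {N e : ℕ}
    (h : (∏ i ∈ S, f i) ^ N * a ∈ W ^ e) (N' : ℕ) :
    (∏ i ∈ S, f i) ^ (N + N') * a ∈ W ^ (e + N' * S.card) := by
  have h1 : (∏ i ∈ S, f i) ^ N' ∈ W ^ (N' * S.card) := by
    rw [mul_comm, pow_mul]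
    exact Submodule.pow_mem_pow _ (prod_mem hf S) _
  have h2 := Submodule.mul_mem_mul h h1
  rw [← pow_add] at h2
  convert h2 using 1
  ring

private theorem sec_add (hf : ∀ i, f i ∈ W) {m : ℤ} {S : Finset ι} {a b : L}
    (ha : a ∈ Sec W f m S) (hb : b ∈ Sec W f m S) : a + b ∈ Sec W f m S := by
  obtain ⟨N, e, he, h⟩ := ha
  obtain ⟨N', e', he', h'⟩ := hb
  refine ⟨N + N', e + N' * S.card, ?_, ?_⟩
  · push_cast
    rw [he]
    ring
  · rw [mul_add]
    refine Submodule.add_mem _ (sec_raise hf h N') ?_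
    have h2 := sec_raise hf h' N
    have hee : e' + N * S.card = e + N' * S.card := by
      zify
      rw [he, he']
      ring
    rw [hee, add_comm N' N] at h2
    exact h2

private theorem sec_smul {m : ℤ} {S : Finset ι} {a : L} (r : O)
    (ha : a ∈ Sec W f m S) : r • a ∈ Sec W f m S := by
  obtain ⟨N, e, he, h⟩ := ha
  refine ⟨N, e, he, ?_⟩
  rw [mul_smul_comm]
  exact Submodule.smul_mem _ _ h

private theorem sec_mul {m : ℤ} {n : ℕ} {S : Finset ι} {a z : L} (hz : z ∈ W ^ n)
    (ha : a ∈ Sec W f m S) : z * a ∈ Sec W f (m + n) S := by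
  obtain ⟨N, e, he, h⟩ := ha
  refine ⟨N, n + e, by push_cast; rw [he]; ring, ?_⟩
  have h2 := Submodule.mul_mem_mul hz h
  rw [← pow_add] at h2
  convert h2 using 1
  ring

private theorem sec_zero {m : ℤ} {S : Finset ι} (hS : S.Nonempty) : (0 : L) ∈ Sec W f m S := by
  have h1 : 1 ≤ S.card := hS.card_pos
  have h2 : 0 ≤ m + (m.natAbs : ℕ) * (S.card : ℤ) := by
    have h3 : (1 : ℤ) ≤ S.card := by exact_mod_cast h1
    have h4 : -m ≤ (m.natAbs : ℤ) := by omega
    nlinarith [Int.natCast_nonneg m.natAbs]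
  refine ⟨m.natAbs, (m + (m.natAbs : ℕ) * (S.card : ℤ)).toNat, ?_, ?_⟩
  · rw [Int.toNat_of_nonneg h2]
  · rw [mul_zero]
    exact Submodule.zero_mem _

private theorem sec_sum (hf : ∀ i, f i ∈ W) {m : ℤ} {S : Finset ι} (hS : S.Nonempty)
    {J : Type} (s : Finset J) (r : J → L) (hr : ∀ j, r j ∈ Sec W f m S) :
    ∑ j ∈ s, r j ∈ Sec W f m S := by
  classical
  induction s using Finset.induction_on with
  | empty => exact sec_zero hS
  | insert a s ha ih =>
    rw [Finset.sum_insert ha]
    exact sec_add hf (hr a) ih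

variable [LinearOrder ι]

private theorem dd_add (c c' : Finset ι → L) (S : Finset ι) : dd (c + c') S = dd c S + dd c' S := by
  simp only [dd, Pi.add_apply, smul_add, Finset.sum_add_distrib]

private theorem dd_mul (z : L) (c : Finset ι → L) (S : Finset ι) :
    dd (fun S => z * c S) S = z * dd c S := by
  simp only [dd, Finset.mul_sum, mul_smul_comm]

private theorem dd_smul (r : O) (c : Finset ι → L) (S : Finset ι) :
    dd (r • c) S = r • dd c S := by
  simp only [dd, Finset.smul_sum, Pi.smul_apply]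
  refine Finset.sum_congr rfl fun i _ => ?_
  rw [smul_comm]

private theorem cocyc_add (hf : ∀ i, f i ∈ W) {m : ℤ} {j : ℕ} {c c' : Finset ι → L}
    (hc : Cocyc W f m j c) (hc' : Cocyc W f m j c') : Cocyc W f m j (c + c') := by
  refine ⟨fun S hS => sec_add hf (hc.1 S hS) (hc'.1 S hS), fun S hS => ?_⟩
  rw [dd_add, hc.2 S hS, hc'.2 S hS, add_zero]

private theorem cocyc_smul {m : ℤ} {j : ℕ} {c : Finset ι → L} (r : O)
    (hc : Cocyc W f m j c) : Cocyc W f m j (r • c) := by
  refine ⟨fun S hS => sec_smul r (hc.1 S hS), fun S hS => ?_⟩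
  rw [dd_smul, hc.2 S hS, smul_zero]

private theorem cocyc_mul {m : ℤ} {n j : ℕ} {z : L} (hz : z ∈ W ^ n) {c : Finset ι → L}
    (hc : Cocyc W f m j c) : Cocyc W f (m + n) j (fun S => z * c S) := by
  refine ⟨fun S hS => sec_mul hz (hc.1 S hS), fun S hS => ?_⟩
  rw [dd_mul, hc.2 S hS, mul_zero]

private theorem cocyc_zero {m : ℤ} {j : ℕ} (hj : 1 ≤ j) :
    Cocyc W f m j (0 : Finset ι → L) := by
  refine ⟨fun S hS => sec_zero (Finset.card_pos.1 (by omega)), fun S hS => ?_⟩
  simp [dd]

end sec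

section bd

variable {L O : Type} [CommRing O] [Field L] [Algebra O L]
variable {W : Submodule O L} {D : ℕ} {θ : Fin D → L}

private theorem erase_nonempty (hD : 2 ≤ D) (k : Fin D) :
    ((Finset.univ : Finset (Fin D)).erase k).Nonempty := by
  rw [← Finset.card_pos, Finset.card_erase_of_mem (Finset.mem_univ k), Finset.card_univ,
    Fintype.card_fin]
  omega

private theorem bd_of_sec (hD : 2 ≤ D) {m : ℤ} {v : L} (k : Fin D)
    (h : v ∈ Sec W θ m (Finset.univ.erase k)) : Bd W θ m v := by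
  classical
  refine ⟨fun l => if l = k then v else 0, fun l => ?_, ?_⟩
  · by_cases hl : l = k
    · subst hl
      simpa using h
    · simp only [hl, if_false]
      exact sec_zero (erase_nonempty hD l)
  · simp

private theorem sec_of_erase (hθ : ∀ k, θ k ∈ W) {m : ℤ} {v : L} (k : Fin D)
    (h : v ∈ Sec W θ m (Finset.univ.erase k)) : v ∈ Sec W θ m Finset.univ := by
  obtain ⟨N, e, he, h⟩ := h
  have hc : (Finset.univ : Finset (Fin D)).card = (Finset.univ.erase k).card + 1 :=
    (Finset.card_erase_add_one (Finset.mem_univ k)).symm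
  refine ⟨N, N + e, ?_, ?_⟩
  · rw [hc]
    push_cast
    rw [he]
    ring
  · have h2 := Submodule.mul_mem_mul (Submodule.pow_mem_pow _ (hθ k) N) h
    rw [← pow_add] at h2
    convert h2 using 1
    rw [← Finset.mul_prod_erase Finset.univ θ (Finset.mem_univ k)]
    ring

private theorem bd_sec (hD : 2 ≤ D) (hθ : ∀ k, θ k ∈ W) {m : ℤ} {v : L} (h : Bd W θ m v) :
    v ∈ Sec W θ m Finset.univ := by
  obtain ⟨r, hr, rfl⟩ := h
  refine sec_sum hθ ?_ _ _ fun k => sec_of_erase hθ k (hr k)
  rw [← Finset.card_pos, Finset.card_univ, Fintype.card_fin]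
  omega

end bd

section mono

variable {K L : Type} [Field K] [Field L] [Algebra K L]
variable {V : Submodule K L} {D : ℕ} {θ : Fin D → L}

private theorem mon_mem (hθ : ∀ k, θ k ∈ V) (s : Finset (Fin D)) (b : Fin D → ℕ) :
    ∏ i ∈ s, θ i ^ b i ∈ V ^ (∑ i ∈ s, b i) := by
  classical
  induction s using Finset.induction_on with
  | empty => simp
  | insert a s ha ih =>
    rw [Finset.prod_insert ha, Finset.sum_insert ha, pow_add]
    exact Submodule.mul_mem_mul (Submodule.pow_mem_pow _ (hθ a) _) ih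

/-- a Laurent monomial with one nonnegative exponent gives a coboundary -/
private theorem monz_bd (hD : 2 ≤ D) (hθ : ∀ k, θ k ∈ V) (hθ0 : ∀ k, θ k ≠ 0) {a : L} {e : ℕ}
    (ha : a ∈ V ^ e) (b : Fin D → ℤ) (k : Fin D) (hk : 0 ≤ b k) {m : ℤ}
    (hm : m = (∑ l, b l) + e) : Bd V θ m (a * monz θ b) := by
  classical
  apply bd_of_sec hD k
  set N : ℕ := ∑ l, (b l).natAbs with hN
  have hb : ∀ l, 0 ≤ b l + N := by
    intro l
    have h1 : (b l).natAbs ≤ N := Finset.single_le_sum (f := fun l => (b l).natAbs)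
      (fun _ _ => Nat.zero_le _) (Finset.mem_univ l)
    omega
  -- the exponents after multiplication
  set c : Fin D → ℕ := fun l => if l = k then (b k).toNat else (b l + N).toNat with hc
  have hcz : ∀ l, (c l : ℤ) = b l + (if l = k then 0 else (N : ℤ)) := by
    intro l
    by_cases hl : l = k
    · subst hl
      simp only [hc, if_true, add_zero]
      exact Int.toNat_of_nonneg hk
    · simp only [hc, hl, if_false]
      exact Int.toNat_of_nonneg (hb l)
  have hcard : ((Finset.univ : Finset (Fin D)).erase k).card = D - 1 := by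
    rw [Finset.card_erase_of_mem (Finset.mem_univ k), Finset.card_univ, Fintype.card_fin]
  have hsum : ((∑ l, c l : ℕ) : ℤ) = (∑ l, b l) + N * ((Finset.univ : Finset (Fin D)).erase k).card := by
    push_cast
    simp only [hcz]
    rw [Finset.sum_add_distrib]
    congr 1
    rw [← Finset.add_sum_erase _ _ (Finset.mem_univ k), if_pos rfl, zero_add]
    rw [Finset.sum_congr rfl (fun l hl => if_neg (Finset.ne_of_mem_erase hl))]
    rw [Finset.sum_const, nsmul_eq_mul]
    ring
  refine ⟨N, e + ∑ l, c l, ?_, ?_⟩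
  · rw [Nat.cast_add, hsum, hm]
    ring
  · have h1 : (∏ i ∈ (Finset.univ : Finset (Fin D)).erase k, θ i) ^ N * (a * monz θ b)
        = a * ∏ l, θ l ^ c l := by
      have h2 : ∏ l, θ l ^ c l = (∏ i ∈ (Finset.univ : Finset (Fin D)).erase k, θ i) ^ N
          * monz θ b := by
        rw [monz, ← Finset.mul_prod_erase Finset.univ _ (Finset.mem_univ k),
          ← Finset.mul_prod_erase Finset.univ (fun i => θ i ^ b i) (Finset.mem_univ k),
          ← Finset.prod_pow]
        rw [mul_left_comm, ← Finset.prod_mul_distrib]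
        congr 1
        · rw [← zpow_natCast, hcz k, if_pos rfl, add_zero]
        · refine Finset.prod_congr rfl fun l hl => ?_
          rw [← zpow_natCast, hcz l, if_neg (Finset.ne_of_mem_erase hl), zpow_add₀ (hθ0 l),
            zpow_natCast, mul_comm]
      rw [h2]
      ring
    rw [h1, pow_add]
    exact Submodule.mul_mem_mul ha (mon_mem hθ _ _)

/-- the generating function of a functional -/
noncomputable def Fp (θ : Fin D → L) (a : L) (e : ℕ) (m : ℤ) (Λ : L →ₗ[K] K) :
    MvPolynomial (Fin D) K :=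
  if 0 ≤ m + e - D then
    ∑ b ∈ Finset.finsuppAntidiag (Finset.univ : Finset (Fin D)) (m + e - D).toNat,
      monomial b (Λ (a * monz θ (fun l => -(b l : ℤ) - 1)))
  else 0

private theorem coeff_Fp (θ : Fin D → L) (a : L) (e : ℕ) (m : ℤ) (Λ : L →ₗ[K] K)
    (b : Fin D →₀ ℕ) :
    coeff b (Fp θ a e m Λ) =
      if ((∑ l, b l : ℕ) : ℤ) = m + e - D then Λ (a * monz θ (fun l => -(b l : ℤ) - 1)) else 0 := by
  classical
  unfold Fp
  by_cases h : 0 ≤ m + e - D
  · rw [if_pos h, coeff_sum]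
    simp only [coeff_monomial]
    rw [Finset.sum_ite_eq']
    have h1 : b ∈ Finset.finsuppAntidiag (Finset.univ : Finset (Fin D)) (m + e - D).toNat ↔
        ((∑ l, b l : ℕ) : ℤ) = m + e - D := by
      rw [Finset.mem_finsuppAntidiag]
      constructor
      · rintro ⟨h2, -⟩
        have h3 : ((∑ l, b l : ℕ) : ℤ) = ((m + e - D).toNat : ℤ) := by
          rw [← h2]
        rw [h3, Int.toNat_of_nonneg h]
      · intro h2
        refine ⟨?_, Finset.subset_univ _⟩
        zify
        rw [Int.toNat_of_nonneg h, ← h2]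
        push_cast
        rfl
    simp only [h1]
  · rw [if_neg h, coeff_zero, if_neg]
    intro h1
    apply h
    rw [← h1]
    positivity

/-- generators of the ring as a module over the polynomial ring -/
private theorem gens (hV : V.FG) (hcov : Cover V θ) :
    ∃ (I : Type) (_ : Fintype I) (e : I → ℕ) (a : I → L), (∀ i, a i ∈ V ^ e i) ∧
      ∀ n, V ^ n ≤ Submodule.span K
        {z | ∃ (i : I) (b : Fin D → ℕ), (∑ l, b l) + e i = n ∧ z = (∏ l, θ l ^ b l) * a i} := by
  classical
  obtain ⟨N, hN⟩ := hcov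
  have hfg : ∀ n, (V ^ n).FG := fun n => hV.pow n
  have hg : ∀ n, ∃ (r : ℕ) (g : Fin r → L), Submodule.span K (Set.range g) = V ^ n := fun n =>
    Submodule.fg_iff_exists_fin_generating_family.1 (hfg n)
  choose r g hg using hg
  refine ⟨Σ j : Fin (N + 1), Fin (r j), inferInstance, fun i => (i.1 : ℕ), fun i => g i.1 i.2,
    fun i => ?_, ?_⟩
  · rw [← hg]
    exact Submodule.subset_span ⟨i.2, rfl⟩
  · intro n
    induction n with
    | zero =>
      rw [← hg 0, Submodule.span_le]
      rintro _ ⟨t, rfl⟩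
      exact Submodule.subset_span ⟨⟨⟨0, Nat.succ_pos _⟩, t⟩, 0, by simp, by simp⟩
    | succ n ih =>
      by_cases hn : n + 1 ≤ N
      · rw [← hg (n + 1), Submodule.span_le]
        rintro _ ⟨t, rfl⟩
        exact Submodule.subset_span ⟨⟨⟨n + 1, by omega⟩, t⟩, 0, by simp, by simp⟩
      · obtain ⟨q, rfl⟩ : ∃ q, n = N + q := ⟨n - N, by omega⟩
        have h1 : V ^ (N + q + 1) = V ^ (N + 1) * V ^ q := by
          rw [← pow_add]
          congr 1
          ring
        rw [h1, Submodule.mul_le]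
        intro u hu w hw
        obtain ⟨s, hs, rfl⟩ := hN u hu
        rw [Finset.sum_mul]
        refine Submodule.sum_mem _ fun k _ => ?_
        have h2 : s k * w ∈ V ^ (N + q) := by
          rw [pow_add]
          exact Submodule.mul_mem_mul (hs k) hw
        have h3 := ih h2
        rw [mul_assoc]
        generalize s k * w = z at h3
        induction h3 using Submodule.span_induction with
        | mem z hz =>
          obtain ⟨i, b, hb, rfl⟩ := hz
          refine Submodule.subset_span ⟨i, b + Pi.single k 1, ?_, ?_⟩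
          · rw [← hb]
            simp only [Pi.add_apply, Finset.sum_add_distrib, Finset.sum_pi_single', Finset.mem_univ,
              if_true]
            ring
          · simp only [Pi.add_apply, pow_add, Finset.prod_mul_distrib]
            have h4 : ∏ l, θ l ^ (Pi.single k 1 : Fin D → ℕ) l = θ k := by
              rw [Finset.prod_eq_single k]
              · simp
              · intro l _ hl
                simp [Pi.single_eq_of_ne hl]
              · simp
            rw [h4]
            ring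
        | zero =>
          rw [mul_zero]
          exact Submodule.zero_mem _
        | add x y _ _ hx hy =>
          rw [mul_add]
          exact Submodule.add_mem _ hx hy
        | smul c x _ hx =>
          rw [mul_smul_comm]
          exact Submodule.smul_mem _ _ hx

private theorem mul_coeff (hD : 2 ≤ D) (hθ : ∀ k, θ k ∈ V) (hθ0 : ∀ k, θ k ≠ 0) {a : L} {e : ℕ}
    (ha : a ∈ V ^ e) {m : ℤ} {Λ : L →ₗ[K] K} (hΛ : ∀ v, Bd V θ (-m) v → Λ v = 0)
    (b c : Fin D →₀ ℕ) (n : ℕ) (hb : ∑ l, b l = n) :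
    (if ((∑ l, c l : ℕ) : ℤ) = m + n + e - D then
      Λ ((∏ l, θ l ^ b l) * (a * monz θ (fun l => -(c l : ℤ) - 1))) else 0) =
      if b ≤ c then coeff (c - b) (Fp θ a e m Λ) else 0 := by
  by_cases hbc : b ≤ c
  · rw [if_pos hbc, coeff_Fp]
    have h1 : ((∑ l, (c - b) l : ℕ) : ℤ) = ((∑ l, c l : ℕ) : ℤ) - n := by
      have h2 : ∑ l, (c - b) l + ∑ l, b l = ∑ l, c l := by
        rw [← Finset.sum_add_distrib]
        refine Finset.sum_congr rfl fun l _ => ?_
        rw [Finsupp.tsub_apply]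
        exact Nat.sub_add_cancel (hbc l)
      rw [← h2, hb]
      push_cast
      ring
    rw [h1]
    have h3 : ((∑ l, c l : ℕ) : ℤ) = m + n + e - D ↔ ((∑ l, c l : ℕ) : ℤ) - n = m + e - D := by
      constructor <;> intro h <;> linarith
    have h4 : (∏ l, θ l ^ b l) * (a * monz θ (fun l => -(c l : ℤ) - 1)) =
        a * monz θ (fun l => -((c - b) l : ℤ) - 1) := by
      rw [mul_left_comm, monz, monz, ← Finset.prod_mul_distrib]
      congr 1
      refine Finset.prod_congr rfl fun l _ => ?_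
      rw [← zpow_natCast, ← zpow_add₀ (hθ0 l)]
      congr 1
      rw [Finsupp.tsub_apply, Nat.cast_sub (hbc l)]
      ring
    rw [h4]
    simp only [h3]
  · rw [if_neg hbc]
    split_ifs with h
    · obtain ⟨k, hk⟩ : ∃ k, c k < b k := by
        by_contra hcon
        push Not at hcon
        exact hbc hcon
      apply hΛ
      have h4 : (∏ l, θ l ^ b l) * (a * monz θ (fun l => -(c l : ℤ) - 1)) =
          a * monz θ (fun l => (b l : ℤ) + (-(c l : ℤ) - 1)) := by
        rw [mul_left_comm, monz, monz, ← Finset.prod_mul_distrib]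
        congr 1
        refine Finset.prod_congr rfl fun l _ => ?_
        rw [← zpow_natCast, ← zpow_add₀ (hθ0 l)]
      rw [h4]
      refine monz_bd hD hθ hθ0 ha _ k (by omega) ?_
      rw [Finset.sum_add_distrib, Finset.sum_sub_distrib, Finset.sum_neg_distrib, Finset.sum_const,
        Finset.card_univ, Fintype.card_fin]
      push_cast at h
      have hb' : ∑ l, (b l : ℤ) = n := by exact_mod_cast hb
      rw [hb', h]
      simp only [nsmul_eq_mul, mul_one]
      ring
    · rfl

/-- multiplicativity of the generating function -/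
theorem Fp_mul (hD : 2 ≤ D) (hθ : ∀ k, θ k ∈ V) (hθ0 : ∀ k, θ k ≠ 0) {a : L} {e : ℕ}
    (ha : a ∈ V ^ e) {m : ℤ} {Λ : L →ₗ[K] K} (hΛ : ∀ v, Bd V θ (-m) v → Λ v = 0)
    (p : MvPolynomial (Fin D) K) (n : ℕ) (hp : ∀ b ∈ p.support, ∑ l, b l = n) :
    Fp θ a e (m + n) (Λ ∘ₗ LinearMap.mulLeft K (aeval θ p)) = p * Fp θ a e m Λ := by
  ext c
  rw [coeff_Fp]
  have h1 : coeff c (p * Fp θ a e m Λ) = ∑ b ∈ p.support,
      coeff b p * (if b ≤ c then coeff (c - b) (Fp θ a e m Λ) else 0) := by
    conv_lhs => rw [p.as_sum]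
    rw [Finset.sum_mul, coeff_sum]
    refine Finset.sum_congr rfl fun b _ => ?_
    rw [coeff_monomial_mul']
    split_ifs
    · rfl
    · rw [mul_zero]
  have h2 : ∀ b ∈ p.support,
      coeff b p * (if b ≤ c then coeff (c - b) (Fp θ a e m Λ) else 0) =
      coeff b p * (if ((∑ l, c l : ℕ) : ℤ) = m + n + e - D then
        Λ ((∏ l, θ l ^ b l) * (a * monz θ (fun l => -(c l : ℤ) - 1))) else 0) := fun b hb => by
    rw [mul_coeff hD hθ hθ0 ha hΛ b c n (hp b hb)]
  rw [h1, Finset.sum_congr rfl h2]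
  split_ifs with h
  · rw [LinearMap.comp_apply, LinearMap.mulLeft_apply, aeval_def, eval₂_eq', Finset.sum_mul,
      map_sum]
    refine Finset.sum_congr rfl fun b _ => ?_
    rw [← Algebra.smul_def, smul_mul_assoc, map_smul, smul_eq_mul]
  · simp

/-- injectivity of the generating functions -/
theorem Fp_inj (hD : 2 ≤ D) (hθ : ∀ k, θ k ∈ V) (hθ0 : ∀ k, θ k ≠ 0) {I : Type} {e : I → ℕ}
    {a : I → L} (ha : ∀ i, a i ∈ V ^ e i)
    (hgen : ∀ n, V ^ n ≤ Submodule.span K
        {z | ∃ (i : I) (b : Fin D → ℕ), (∑ l, b l) + e i = n ∧ z = (∏ l, θ l ^ b l) * a i})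
    {m : ℤ} {Λ : L →ₗ[K] K} (hΛ : ∀ v, Bd V θ (-m) v → Λ v = 0)
    (h0 : ∀ i, Fp θ (a i) (e i) m Λ = 0) (v : L) (hv : v ∈ Sec V θ (-m) Finset.univ) :
    Λ v = 0 := by
  obtain ⟨N, e', he', hv⟩ := hv
  have hP : (∏ i, θ i) ≠ 0 := Finset.prod_ne_zero_iff.2 fun i _ => hθ0 i
  have hvv : v = (∏ i, θ i ^ (-(N : ℤ))) * ((∏ i, θ i) ^ N * v) := by
    rw [← mul_assoc, ← Finset.prod_pow, ← Finset.prod_mul_distrib]
    rw [Finset.prod_congr rfl (fun i _ => by
      rw [← zpow_natCast, ← zpow_add₀ (hθ0 i), neg_add_cancel, zpow_zero])]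
    simp
  rw [hvv]
  have h1 := hgen e' hv
  generalize (∏ i, θ i) ^ N * v = z at h1
  clear hvv hv
  induction h1 using Submodule.span_induction with
  | mem z hz =>
    obtain ⟨i, b, hb, rfl⟩ := hz
    have h2 : (∏ i, θ i ^ (-(N : ℤ))) * ((∏ l, θ l ^ b l) * a i) =
        a i * monz θ (fun l => (b l : ℤ) - N) := by
      rw [monz, mul_comm (a i), ← mul_assoc, ← Finset.prod_mul_distrib]
      congr 1
      refine Finset.prod_congr rfl fun l _ => ?_
      rw [← zpow_natCast, ← zpow_add₀ (hθ0 l)]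
      congr 1
      ring
    rw [h2]
    have hbz : ∑ l, (b l : ℤ) + e i = e' := by exact_mod_cast hb
    rw [Finset.card_univ, Fintype.card_fin] at he'
    by_cases hk : ∃ k, N ≤ b k
    · obtain ⟨k, hk⟩ := hk
      apply hΛ
      refine monz_bd hD hθ hθ0 (ha i) _ k (by omega) ?_
      rw [Finset.sum_sub_distrib, Finset.sum_const, Finset.card_univ, Fintype.card_fin]
      rw [nsmul_eq_mul]
      linarith
    · push Not at hk
      let c : Fin D →₀ ℕ := Finsupp.equivFunOnFinite.symm (fun l => N - 1 - b l)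
      have hc : ∀ l, (c l : ℤ) = N - 1 - b l := by
        intro l
        have := hk l
        show ((N - 1 - b l : ℕ) : ℤ) = _
        omega
      have h3 : coeff c (Fp θ (a i) (e i) m Λ) = 0 := by rw [h0 i, coeff_zero]
      rw [coeff_Fp, if_pos] at h3
      · rw [← h3]
        congr 3
        funext l
        rw [hc]
        ring
      · push_cast
        simp only [hc]
        rw [Finset.sum_sub_distrib, Finset.sum_const, Finset.card_univ, Fintype.card_fin,
          nsmul_eq_mul]
        linarith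
  | zero => rw [mul_zero, map_zero]
  | add x y _ _ hx hy => rw [mul_add, map_add, hx, hy, add_zero]
  | smul r x _ hx => rw [mul_smul_comm, map_smul, hx, smul_zero]

/-- homogeneous component of integral degree -/
noncomputable def hcm (n : ℤ) (p : MvPolynomial (Fin D) K) : MvPolynomial (Fin D) K :=
  if 0 ≤ n then homogeneousComponent n.toNat p else 0

private theorem coeff_hcm (n : ℤ) (p : MvPolynomial (Fin D) K) (b : Fin D →₀ ℕ) :
    coeff b (hcm n p) = if ((∑ l, b l : ℕ) : ℤ) = n then coeff b p else 0 := by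
  unfold hcm
  by_cases h : 0 ≤ n
  · rw [if_pos h, coeff_homogeneousComponent, Finsupp.degree_eq_sum]
    have h1 : ∑ l, b l = n.toNat ↔ ((∑ l, b l : ℕ) : ℤ) = n := by
      constructor
      · intro h2
        rw [h2, Int.toNat_of_nonneg h]
      · intro h2
        zify
        rw [Int.toNat_of_nonneg h, ← h2]
        push_cast
        rfl
    simp only [h1]
  · rw [if_neg h, coeff_zero, if_neg]
    intro h1
    apply h
    rw [← h1]
    positivity

private theorem coeff_hcm_mul (p q : MvPolynomial (Fin D) K) (k : ℤ)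
    (hq : ∀ b, coeff b q ≠ 0 → ((∑ l, b l : ℕ) : ℤ) = k) (n : ℤ) (c : Fin D →₀ ℕ) :
    coeff c (hcm n p * q) = if ((∑ l, c l : ℕ) : ℤ) = n + k then coeff c (p * q) else 0 := by
  classical
  rw [coeff_mul, coeff_mul]
  have h1 : ∀ x ∈ Finset.HasAntidiagonal.antidiagonal c, coeff x.1 (hcm n p) * coeff x.2 q =
      if ((∑ l, c l : ℕ) : ℤ) = n + k then coeff x.1 p * coeff x.2 q else 0 := by
    intro x hx
    rw [Finset.HasAntidiagonal.mem_antidiagonal] at hx
    by_cases h0 : coeff x.2 q = 0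
    · rw [h0]
      simp
    · have h2 := hq _ h0
      have h3 : ((∑ l, c l : ℕ) : ℤ) = ((∑ l, x.1 l : ℕ) : ℤ) + k := by
        rw [← hx, ← h2]
        push_cast
        rw [← Finset.sum_add_distrib]
        rfl
      rw [coeff_hcm, h3]
      by_cases h4 : ((∑ l, x.1 l : ℕ) : ℤ) = n
      · rw [if_pos h4, if_pos (by rw [h4])]
      · rw [if_neg h4, if_neg (fun h => h4 (by linarith)), zero_mul]
  rw [Finset.sum_congr rfl h1]
  split_ifs
  · rfl
  · simp

private theorem aeval_hcm_mem (hθ : ∀ k, θ k ∈ V) (n : ℕ) (p : MvPolynomial (Fin D) K) :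
    aeval θ (hcm n p) ∈ V ^ n := by
  rw [aeval_def, eval₂_eq']
  refine Submodule.sum_mem _ fun b hb => ?_
  rw [← Algebra.smul_def]
  refine Submodule.smul_mem _ _ ?_
  have h1 : ((∑ l, b l : ℕ) : ℤ) = n := by
    by_contra h
    rw [mem_support_iff, coeff_hcm, if_neg h] at hb
    exact hb rfl
  have h2 : ∑ l, b l = n := by exact_mod_cast h1
  rw [← h2]
  exact mon_mem hθ _ _

end mono

/-- a functional on cochains that kills the coboundaries comes from a functional on top sections -/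
theorem ext_top (hTOP : S_TOP) (hREPC : S_REPC) {K L ι : Type} [Field K] [Field L] [Algebra K L]
    [LinearOrder ι] [Fintype ι] (D : ℕ) (V : Submodule K L) (x : ι → L) (θ : Fin D → L) (μ : ℤ)
    (hD : 2 ≤ D) (hx : ∀ i, x i ∈ V) (hx0 : ∀ i, x i ≠ 0) (hθ : ∀ k, θ k ∈ V)
    (hθ0 : ∀ k, θ k ≠ 0) (hcx : Cover V x) (hcθ : Cover V θ) (lam : (Finset ι → L) →ₗ[K] K)
    (hlam : ∀ c, Cocyc V x μ D c → Cobd V x μ D c → lam c = 0) :
    ∃ Λ : L →ₗ[K] K, (∀ v, Bd V θ μ v → Λ v = 0) ∧
      ∀ c v, Cocyc V x μ D c → Rep V x θ μ c v → Λ v = lam c := by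
  obtain ⟨t1, t2, t3⟩ := hTOP K L ι D V x θ μ hD hx hx0 hθ hθ0 hcx hcθ
  obtain ⟨r1, -, -, r4, -⟩ := hREPC K L ι D V x θ μ hD hx hθ
  have hne : (Finset.univ : Finset (Fin D)).Nonempty := by
    rw [← Finset.card_pos, Finset.card_univ, Fintype.card_fin]
    omega
  let R : Submodule K ((Finset ι → L) × L) :=
    { carrier := {p | Cocyc V x μ D p.1 ∧ Rep V x θ μ p.1 p.2}
      add_mem' := by
        rintro ⟨c, v⟩ ⟨c', v'⟩ ⟨h1, h2⟩ ⟨h3, h4⟩
        exact ⟨cocyc_add hx h1 h3, r1 _ _ _ _ h2 h4⟩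
      zero_mem' := by
        obtain ⟨c, hc1, hc2⟩ := t1 0 (sec_zero hne)
        refine ⟨cocyc_zero (by omega), ?_⟩
        have h := r4 0 c 0 hc2
        have h0 : (fun S => (0 : K) • c S) = (0 : Finset ι → L) := by
          funext S
          rw [zero_smul]
          rfl
        rw [h0, zero_smul] at h
        exact h
      smul_mem' := by
        rintro r ⟨c, v⟩ ⟨h1, h2⟩
        exact ⟨cocyc_smul r h1, r4 r _ _ h2⟩ }
  let g : R →ₗ[K] L := (LinearMap.snd K (Finset ι → L) L) ∘ₗ R.subtype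
  let f : R →ₗ[K] K := lam ∘ₗ (LinearMap.fst K (Finset ι → L) L) ∘ₗ R.subtype
  have hf : f ∈ (LinearMap.ker g).dualAnnihilator := by
    rw [Submodule.mem_dualAnnihilator]
    rintro ⟨⟨c, v⟩, h1, h2⟩ hp
    have hv : v = 0 := hp
    subst hv
    show lam c = 0
    refine hlam c h1 ((t3 c 0 h1 h2).2 ?_)
    exact ⟨fun _ => 0, fun k => sec_zero (erase_nonempty hD k), by simp⟩
  rw [← LinearMap.range_dualMap_eq_dualAnnihilator_ker] at hf
  obtain ⟨Λ, hΛ⟩ := hf
  have hA : ∀ c v, Cocyc V x μ D c → Rep V x θ μ c v → Λ v = lam c := by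
    intro c v h1 h2
    exact LinearMap.congr_fun hΛ ⟨⟨c, v⟩, h1, h2⟩
  refine ⟨Λ, fun v hv => ?_, hA⟩
  obtain ⟨c, hc1, hc2⟩ := t1 v (bd_sec hD hθ hv)
  rw [hA c v hc1 hc2]
  exact hlam c hc1 ((t3 c v hc1 hc2).2 hv)

private theorem cover_self {K L ι : Type} [Field K] [Field L] [Algebra K L] [Fintype ι]
    (x : ι → L) : Cover (VV K x) x := by
  refine ⟨0, fun a ha => ?_⟩
  rw [zero_add, pow_one, VV, Submodule.mem_span_range_iff_exists_fun] at ha
  obtain ⟨c, rfl⟩ := ha
  refine ⟨fun i => algebraMap K L (c i), fun i => ?_, ?_⟩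
  · rw [pow_zero, Submodule.mem_one]
    exact ⟨c i, rfl⟩
  · refine Finset.sum_congr rfl fun i _ => ?_
    rw [Algebra.smul_def, mul_comm]

/-- finitely many functionals on the top cohomology -/
theorem fg : S_TOP → S_REPC → S_POLT → S_FG := by
  intro hTOP hREPC _ K L ι _ _ _ _ _ x D θ hD hM hθ hind hcov
  classical
  have hθ0 : ∀ k, θ k ≠ 0 := fun k => hind.ne_zero k
  have hx : ∀ i, x i ∈ VV K x := fun i => Submodule.subset_span ⟨i, rfl⟩
  have hx0 := hM.ne
  have hcx : Cover (VV K x) x := cover_self x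
  have hVfg : (VV K x).FG := Submodule.fg_span (Set.finite_range x)
  obtain ⟨I, _, e, a, ha, hgen⟩ := gens hVfg hcov
  have hext := fun (m : ℤ) (lam : (Finset ι → L) →ₗ[K] K)
    (h : ∀ c, Cocyc (VV K x) x (-m) D c → Cobd (VV K x) x (-m) D c → lam c = 0) =>
    ext_top hTOP hREPC D (VV K x) x θ (-m) hD hx hx0 hθ hθ0 hcx hcov lam h
  -- the set of generating functions
  let 𝓕 : Set (I → MvPolynomial (Fin D) K) := {G | ∃ (m : ℤ) (lam : (Finset ι → L) →ₗ[K] K)
    (Λ : L →ₗ[K] K),
    (∀ c, Cocyc (VV K x) x (-m) D c → Cobd (VV K x) x (-m) D c → lam c = 0) ∧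
    (∀ v, Bd (VV K x) θ (-m) v → Λ v = 0) ∧
    (∀ c v, Cocyc (VV K x) x (-m) D c → Rep (VV K x) x θ (-m) c v → Λ v = lam c) ∧
    G = fun i => Fp θ (a i) (e i) m Λ}
  have hfg : (Submodule.span (MvPolynomial (Fin D) K) 𝓕).FG := IsNoetherian.noetherian _
  rw [Submodule.fg_span_iff_fg_span_finset_subset] at hfg
  obtain ⟨s', hs', hspan⟩ := hfg
  have hmem : ∀ s : Fin s'.card, ((s'.equivFin.symm s : I → MvPolynomial (Fin D) K)) ∈ 𝓕 :=
    fun s => hs' (s'.equivFin.symm s).2
  choose d χ Λs h1 h2 h3 h4 using hmem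
  refine ⟨s'.card, d, χ, h1, ?_⟩
  intro m lam hlam
  obtain ⟨Λ, hΛ1, hΛ2⟩ := hext m lam hlam
  have hG : (fun i => Fp θ (a i) (e i) m Λ) ∈ Submodule.span (MvPolynomial (Fin D) K)
      (Set.range (fun s : Fin s'.card => (s'.equivFin.symm s : I → MvPolynomial (Fin D) K))) := by
    have hr : Set.range (fun s : Fin s'.card =>
        (s'.equivFin.symm s : I → MvPolynomial (Fin D) K)) = (s' : Set _) := by
      ext G
      constructor
      · rintro ⟨s, rfl⟩
        exact (s'.equivFin.symm s).2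
      · intro hG
        exact ⟨s'.equivFin ⟨G, hG⟩, by simp⟩
    rw [hr, ← hspan]
    exact Submodule.subset_span ⟨m, lam, Λ, hlam, hΛ1, hΛ2, rfl⟩
  rw [Submodule.mem_span_range_iff_exists_fun] at hG
  obtain ⟨p, hp⟩ := hG
  have hp' : ∀ i, Fp θ (a i) (e i) m Λ =
      ∑ s, p s * Fp θ (a i) (e i) (d s) (Λs s) := by
    intro i
    have h := congrFun hp i
    rw [Finset.sum_apply] at h
    rw [← h]
    refine Finset.sum_congr rfl fun s _ => ?_
    rw [Pi.smul_apply, smul_eq_mul, h4 s]
  have hsupp : ∀ (i : I) (m : ℤ) (Λ : L →ₗ[K] K) (b : Fin D →₀ ℕ),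
      coeff b (Fp θ (a i) (e i) m Λ) ≠ 0 → ((∑ l, b l : ℕ) : ℤ) = m + e i - D := by
    intro i m Λ b hb
    by_contra h
    rw [coeff_Fp, if_neg h] at hb
    exact hb rfl
  have hp'' : ∀ i, Fp θ (a i) (e i) m Λ =
      ∑ s, hcm (m - d s) (p s) * Fp θ (a i) (e i) (d s) (Λs s) := by
    intro i
    ext c
    rw [coeff_sum]
    have h5 : ∀ s ∈ (Finset.univ : Finset (Fin s'.card)),
        coeff c (hcm (m - d s) (p s) * Fp θ (a i) (e i) (d s) (Λs s)) =
        if ((∑ l, c l : ℕ) : ℤ) = m + e i - D then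
          coeff c (p s * Fp θ (a i) (e i) (d s) (Λs s)) else 0 := by
      intro s _
      rw [coeff_hcm_mul _ _ _ (hsupp i (d s) (Λs s))]
      have h6 : m - d s + (d s + e i - D) = m + e i - D := by ring
      rw [h6]
    rw [Finset.sum_congr rfl h5]
    by_cases hc : ((∑ l, c l : ℕ) : ℤ) = m + e i - D
    · simp only [if_pos hc]
      rw [hp' i, coeff_sum]
    · simp only [if_neg hc, Finset.sum_const_zero]
      rw [coeff_Fp, if_neg hc]
  -- the coefficients
  have hβ : ∀ s, aeval θ (hcm (m - d s) (p s)) = 0 ∨ ∃ e : ℕ, (e : ℤ) = m - d s ∧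
      aeval θ (hcm (m - d s) (p s)) ∈ (VV K x) ^ e := by
    intro s
    by_cases h : 0 ≤ m - d s
    · right
      refine ⟨(m - d s).toNat, Int.toNat_of_nonneg h, ?_⟩
      have h7 := aeval_hcm_mem hθ (m - d s).toNat (p s)
      rwa [Int.toNat_of_nonneg h] at h7
    · left
      rw [hcm, if_neg h, map_zero]
  refine ⟨fun s => aeval θ (hcm (m - d s) (p s)), hβ, ?_⟩
  intro c hc
  -- the difference functional
  let Λ' : L →ₗ[K] K := Λ - ∑ s, (Λs s) ∘ₗ LinearMap.mulLeft K (aeval θ (hcm (m - d s) (p s)))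
  have hΛ'v : ∀ v, Λ' v = Λ v - ∑ s, Λs s (aeval θ (hcm (m - d s) (p s)) * v) := by
    intro v
    simp only [Λ', LinearMap.sub_apply, LinearMap.sum_apply, LinearMap.comp_apply,
      LinearMap.mulLeft_apply]
  have hrep := fun μ => hREPC K L ι D (VV K x) x θ μ hD hx hθ
  have hΛ'0 : ∀ v, Bd (VV K x) θ (-m) v → Λ' v = 0 := by
    intro v hv
    rw [hΛ'v, hΛ1 v hv, zero_sub, neg_eq_zero]
    refine Finset.sum_eq_zero fun s _ => ?_
    rcases hβ s with h | ⟨e', he', h⟩
    · rw [h, zero_mul, map_zero]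
    · apply h2 s
      have h8 := (hrep (-m)).2.2.2.2.2.1 e' _ v h hv
      have h9 : -m + (e' : ℤ) = -(d s) := by rw [he']; ring
      rwa [h9] at h8
  have hlin : ∀ i, Fp θ (a i) (e i) m Λ' = 0 := by
    intro i
    have h10 : ∀ s, Fp θ (a i) (e i) m
        ((Λs s) ∘ₗ LinearMap.mulLeft K (aeval θ (hcm (m - d s) (p s)))) =
        hcm (m - d s) (p s) * Fp θ (a i) (e i) (d s) (Λs s) := by
      intro s
      by_cases h : 0 ≤ m - d s
      · have h11 := Fp_mul hD hθ hθ0 (ha i) (h2 s) (hcm (m - d s) (p s)) (m - d s).toNat (by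
          intro b hb
          rw [mem_support_iff, coeff_hcm] at hb
          have h12 : ((∑ l, b l : ℕ) : ℤ) = m - d s := by
            by_contra h13
            rw [if_neg h13] at hb
            exact hb rfl
          zify
          rw [Int.toNat_of_nonneg h, ← h12]
          push_cast
          rfl)
        rw [Int.toNat_of_nonneg h] at h11
        have h14 : d s + (m - d s) = m := by ring
        rw [h14] at h11
        exact h11
      · have h11 : hcm (m - d s) (p s) = 0 := by rw [hcm, if_neg h]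
        rw [h11, map_zero, zero_mul]
        ext b
        rw [coeff_Fp]
        simp
    ext b
    have h15 : coeff b (Fp θ (a i) (e i) m Λ') = coeff b (Fp θ (a i) (e i) m Λ) -
        ∑ s, coeff b (Fp θ (a i) (e i) m
          ((Λs s) ∘ₗ LinearMap.mulLeft K (aeval θ (hcm (m - d s) (p s))))) := by
      simp only [coeff_Fp]
      split_ifs
      · simp only [Λ', LinearMap.sub_apply, LinearMap.sum_apply]
      · simp
    rw [h15, coeff_zero, sub_eq_zero, hp'' i, coeff_sum]
    refine Finset.sum_congr rfl fun s _ => ?_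
    rw [h10 s]
  obtain ⟨-, t2, -⟩ := hTOP K L ι D (VV K x) x θ (-m) hD hx hx0 hθ hθ0 hcx hcov
  obtain ⟨v, hv, hcv⟩ := t2 c hc
  have h16 := Fp_inj hD hθ hθ0 ha hgen hΛ'0 hlin v hv
  rw [hΛ'v, sub_eq_zero, hΛ2 c v hc hcv] at h16
  rw [h16]
  refine Finset.sum_congr rfl fun s _ => ?_
  rcases hβ s with h | ⟨e', he', h⟩
  · simp only [h, zero_mul, map_zero]
    exact (map_zero (χ s)).symm
  · have h9 : -m + (e' : ℤ) = -(d s) := by rw [he']; ring
    have h17 := (hrep (-m)).2.1 e' _ c v h hcv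
    have h18 := cocyc_mul (f := x) h hc
    rw [h9] at h17 h18
    exact h3 s _ _ h18 h17

end Pool.Agent.Y864.GS
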