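import Pool.Agent.Y234.GS.StmC
import Pool.Agent.Y968.GS.Top

/-!
# Project GS: from the functional identity to the Dedekind hypothesis (job KLH)
-/

set_option autoImplicit false
set_option linter.unusedSectionVars false

namespace Pool.Agent.Y864.GS

open Pool.Agent.Y234.GS MvPolynomial
open Pool.Agent.Y968.GS (sec_mul sec_pow dd_mul dd_pow)

section klh

variable {ι L O : Type} [LinearOrder ι] [CommRing O] [Field L] [Algebra O L]
variable {W : Submodule O L} {f : ι → L}

theorem cocyc_mulK {m : ℤ} {n j : ℕ} {z : L} (hz : z ∈ W ^ n) {c : Finset ι → L}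
    (hc : Cocyc W f m j c) : Cocyc W f (m + n) j (fun S => z * c S) := by
  refine ⟨fun S hS => sec_mul W f m S n z _ hz (hc.1 S hS), fun S hS => ?_⟩
  rw [dd_mul, hc.2 S hS, mul_zero]

theorem cocyc_powK {m : ℤ} {j p e : ℕ} (hp : p.Prime) (hL : CharP L p) {c : Finset ι → L}
    (hc : Cocyc W f m j c) : Cocyc W f ((p ^ e : ℕ) * m) j (fun S => c S ^ p ^ e) := by
  refine ⟨fun S hS => sec_pow W f m S _ _ (hc.1 S hS), fun S hS => ?_⟩
  rw [dd_pow p e hp hL, hc.2 S hS, zero_pow (pow_ne_zero _ hp.ne_zero)]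

end klh

/-- the degree pieces are mapped to the degree pieces -/
theorem map_mem_pow {k k1 L L1 ι : Type} [Field k] [Field k1] [Field L] [Field L1] [Algebra k k1]
    [Algebra k L] [Algebra k L1] [Algebra k1 L1] [Algebra L L1] [IsScalarTower k k1 L1]
    [IsScalarTower k L L1] (x : ι → L) (n : ℕ) (z : L) (hz : z ∈ (VV k x) ^ n) :
    algebraMap L L1 z ∈ (VV k1 (fun i => algebraMap L L1 (x i))) ^ n := by
  induction n generalizing z with
  | zero =>
    rw [pow_zero, Submodule.mem_one] at hz ⊢
    obtain ⟨a, rfl⟩ := hz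
    refine ⟨algebraMap k k1 a, ?_⟩
    rw [← IsScalarTower.algebraMap_apply k k1 L1, ← IsScalarTower.algebraMap_apply k L L1]
  | succ n ih =>
    rw [pow_succ] at hz ⊢
    induction hz using Submodule.mul_induction_on' with
    | mem_mul_mem a ha b hb =>
      rw [map_mul]
      refine Submodule.mul_mem_mul (ih a ha) ?_
      clear ha
      induction hb using Submodule.span_induction with
      | mem b hb =>
        obtain ⟨i, rfl⟩ := hb
        exact Submodule.subset_span ⟨i, rfl⟩
      | zero =>
        rw [map_zero]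
        exact Submodule.zero_mem _
      | add b b' _ _ h h' =>
        rw [map_add]
        exact Submodule.add_mem _ h h'
      | smul r b _ h =>
        have h2 : algebraMap L L1 (r • b) = (algebraMap k k1 r) • algebraMap L L1 b := by
          rw [Algebra.smul_def, map_mul, ← IsScalarTower.algebraMap_apply k L L1, Algebra.smul_def,
            ← IsScalarTower.algebraMap_apply k k1 L1]
        rw [h2]
        exact Submodule.smul_mem _ _ h
    | add a _ b _ h h' =>
      rw [map_add]
      exact Submodule.add_mem _ h h'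

/-- the expansion as a finitely supported function -/
theorem phiSum_finsupp {k1 L1 : Type} [Field k1] [Field L1] [Algebra k1 L1] {D : ℕ}
    (ψ : Fin D → L1) (χ1 : L1 →ₗ[k1] k1) (μ : ℤ) (h : ℕ) (f : L1) :
    ∃ C : (Fin D → ℕ) →₀ k1, phiSum ψ χ1 μ h f = C.sum (fun a r => r • mon ψ a) ∧
      ∀ a, C a = if ((∑ l, a l : ℕ) : ℤ) = (h : ℤ) - D - μ then
        χ1 (f * monz ψ (fun l => -(a l : ℤ) - 1)) else 0 := by
  classical
  by_cases hh : 0 ≤ (h : ℤ) - D - μ
  · have hmem : ∀ a : Fin D → ℕ, a ∈ Finset.piAntidiag (Finset.univ : Finset (Fin D))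
        ((h : ℤ) - D - μ).toNat ↔ ((∑ l, a l : ℕ) : ℤ) = (h : ℤ) - D - μ := by
      intro a
      rw [Finset.mem_piAntidiag]
      constructor
      · rintro ⟨h1, -⟩
        rw [← Int.toNat_of_nonneg hh, ← h1]
      · intro h1
        refine ⟨?_, fun i _ => Finset.mem_univ i⟩
        zify
        rw [Int.toNat_of_nonneg hh, ← h1]
        push_cast
        rfl
    refine ⟨Finsupp.onFinset (Finset.piAntidiag (Finset.univ : Finset (Fin D))
      ((h : ℤ) - D - μ).toNat) (fun a => if ((∑ l, a l : ℕ) : ℤ) = (h : ℤ) - D - μ then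
        χ1 (f * monz ψ (fun l => -(a l : ℤ) - 1)) else 0) ?_, ?_, ?_⟩
    · intro a ha
      rw [hmem]
      by_contra h1
      exact ha (if_neg h1)
    · rw [phiSum, if_pos hh, Finsupp.onFinset_sum]
      · refine Finset.sum_congr rfl fun a ha => ?_
        rw [if_pos ((hmem a).1 ha)]
      · intro a
        rw [zero_smul]
    · intro a
      rfl
  · refine ⟨0, ?_, fun a => ?_⟩
    · rw [phiSum, if_neg hh, Finsupp.sum_zero_index]
    · rw [if_neg]
      · rfl
      · intro h1
        apply hh
        rw [← h1]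
        positivity

/-- membership of the negative Laurent monomials in the top sections -/
theorem sec_monz {k1 L1 : Type} [Field k1] [Field L1] [Algebra k1 L1] {D : ℕ}
    {V : Submodule k1 L1} {ψ : Fin D → L1} (hψ : ∀ l, ψ l ∈ V) (hψ0 : ∀ l, ψ l ≠ 0) {f : L1}
    {h : ℕ} (hf : f ∈ V ^ h) (a : Fin D → ℕ) {μ : ℤ}
    (hμ : μ = (h : ℤ) - (∑ l, a l : ℕ) - D) :
    f * monz ψ (fun l => -(a l : ℤ) - 1) ∈ Sec V ψ μ Finset.univ := by
  classical
  set N : ℕ := ∑ l, a l + 1 with hN
  have ha : ∀ l, a l + 1 ≤ N := by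
    intro l
    have h1 : a l ≤ ∑ l, a l := Finset.single_le_sum (fun _ _ => Nat.zero_le _) (Finset.mem_univ l)
    omega
  have hcz : ∀ l, ((N - (a l + 1) : ℕ) : ℤ) = N - a l - 1 := by
    intro l
    have := ha l
    omega
  refine ⟨N, h + ∑ l, (N - (a l + 1)), ?_, ?_⟩
  · rw [Nat.cast_add, Nat.cast_sum]
    simp only [hcz]
    rw [Finset.sum_sub_distrib, Finset.sum_sub_distrib, Finset.sum_const, Finset.sum_const,
      Finset.card_univ, Fintype.card_fin, hμ]
    push_cast
    simp only [nsmul_eq_mul, mul_one]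
    ring
  · have h2 : (∏ i, ψ i) ^ N * (f * monz ψ (fun l => -(a l : ℤ) - 1)) =
        f * ∏ l, ψ l ^ (N - (a l + 1)) := by
      rw [monz, mul_left_comm, ← Finset.prod_pow, ← Finset.prod_mul_distrib]
      congr 1
      refine Finset.prod_congr rfl fun l _ => ?_
      rw [← zpow_natCast, ← zpow_natCast, ← zpow_add₀ (hψ0 l), hcz]
      congr 1
      ring
    rw [h2, pow_add]
    refine Submodule.mul_mem_mul hf ?_
    have h3 : ∀ s : Finset (Fin D), ∏ l ∈ s, ψ l ^ (N - (a l + 1)) ∈
        V ^ (∑ l ∈ s, (N - (a l + 1))) := by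
      intro s
      induction s using Finset.induction_on with
      | empty => simp
      | insert b s hb ih =>
        rw [Finset.prod_insert hb, Finset.sum_insert hb, pow_add]
        exact Submodule.mul_mem_mul (Submodule.pow_mem_pow _ (hψ b) _) ih
    exact h3 _

/-- from the functional identity to the Dedekind hypothesis -/
theorem klh : S_TOP → S_REPC → S_EXT → S_CART → S_KLH := by
  intro _ hREPC hEXT hCART
  intro k O k1 L L1 ι _ _ _ _ _ _ _ _ _ _ _ _ _ _ _ _ _ _ _ _ x p D e m M n t ψ d ell χ ell1 χ1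
    φ Φ g c β hp hk hD ht hdisj hM hM1 hψ hind hcov hell0 hell hχ0 hχ hφ hφs hΦ hΦs hg hc hβ hid
  classical
  haveI : Fact p.Prime := ⟨hp⟩
  haveI := hk
  haveI hLp : CharP L p := charP_of_injective_algebraMap (algebraMap k L).injective p
  haveI hk1 : CharP k1 p := charP_of_injective_algebraMap (algebraMap k k1).injective p
  haveI hL1 : CharP L1 p := charP_of_injective_algebraMap (algebraMap k1 L1).injective p
  set X : ι → L1 := fun i => algebraMap L L1 (x i) with hX
  set q : ℕ := p ^ e with hq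
  have hq0 : 0 < q := pow_pos hp.pos e
  have hψ0 : ∀ l, ψ l ≠ 0 := fun l => hind.ne_zero l
  have hXV : ∀ i, X i ∈ VV k1 X := fun i => Submodule.subset_span ⟨i, rfl⟩
  have hrep := fun μ => hREPC k1 L1 ι D (VV k1 X) X ψ μ hD hXV hψ
  obtain ⟨ex1, -⟩ := hEXT k k1 L L1 ι x D ψ (-(m : ℤ)) hD hdisj hM.ne hψ hψ0 hcov
  have hgm := map_mem_pow (k := k) (k1 := k1) (L := L) (L1 := L1) x m g hg
  have hcm := map_mem_pow (k := k) (k1 := k1) (L := L) (L1 := L1) x M c hc
  -- STEP 1
  have E1 : ∀ v ∈ Sec (VV k1 X) ψ (-(m : ℤ)) Finset.univ,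
      (ell1 (algebraMap L L1 g * v)) ^ q =
        ∑ s, χ1 s (algebraMap L L1 (β s) * algebraMap L L1 c * v ^ q) := by
    intro v hv
    obtain ⟨n', r, cc, v', h1, h2, rfl⟩ := ex1 v hv
    have ha : ∀ i, ell1 (algebraMap L L1 g * v' i) =
        algebraMap k k1 (ell (fun S => g * cc i S)) := by
      intro i
      have h3 := cocyc_mulK hg (h1 i)
      have h4 := (hrep (-(m : ℤ))).2.1 m _ _ _ hgm (h2 i)
      rw [neg_add_cancel] at h3 h4
      refine hell _ _ h3 ?_
      simpa only [map_mul] using h4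
    have hb : ∀ i s, χ1 s (algebraMap L L1 (β s) * algebraMap L L1 c * v' i ^ q) =
        algebraMap k k1 (χ s (fun S => β s * (c * cc i S ^ q))) := by
      intro i s
      rcases hβ s with h | ⟨e', he', h⟩
      · simp only [h, map_zero, zero_mul]
        have h0 : (fun _ : Finset ι => (0 : L)) = 0 := rfl
        rw [h0, map_zero, map_zero]
      · have h3 := cocyc_mulK h (cocyc_mulK hc (cocyc_powK (e := e) hp hLp (h1 i)))
        have h4 := (hrep (-(m : ℤ))).2.2.1 p e _ _ hp hL1 (h2 i)
        have h5 := (hrep _).2.1 M _ _ _ hcm h4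
        have hβm := map_mem_pow (k := k) (k1 := k1) (L := L) (L1 := L1) x e' (β s) h
        have h6 := (hrep _).2.1 e' _ _ _ hβm h5
        have h7 : ((p ^ e : ℕ) : ℤ) * (-(m : ℤ)) + M + e' = -(d s) := by
          have : (e' : ℤ) = (p ^ e : ℕ) * m - M - d s := by linarith
          rw [this]
          ring
        rw [h7] at h3 h6
        have h8 := hχ s _ _ h3 (by
          simpa only [map_mul, map_pow] using h6)
        rw [← h8, mul_assoc]
    have hsum : (algebraMap L L1 g * ∑ i, r i • v' i) = ∑ i, r i • (algebraMap L L1 g * v' i) := by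
      rw [Finset.mul_sum]
      exact Finset.sum_congr rfl fun i _ => mul_smul_comm _ _ _
    have hpow : (∑ i, r i • v' i) ^ q = ∑ i, (r i ^ q) • v' i ^ q := by
      rw [hq, sum_pow_char_pow p e]
      exact Finset.sum_congr rfl fun i _ => smul_pow _ _ _
    rw [hsum, map_sum, hq, sum_pow_char_pow p e, ← hq, hpow]
    have hR : ∀ s, χ1 s (algebraMap L L1 (β s) * algebraMap L L1 c * ∑ i, (r i ^ q) • v' i ^ q) =
        ∑ i, r i ^ q * algebraMap k k1 (χ s (fun S => β s * (c * cc i S ^ q))) := by
      intro s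
      rw [Finset.mul_sum, map_sum]
      refine Finset.sum_congr rfl fun i _ => ?_
      rw [mul_smul_comm, map_smul, smul_eq_mul, hb i s]
    rw [Finset.sum_congr rfl (fun s _ => hR s), Finset.sum_comm]
    refine Finset.sum_congr rfl fun i _ => ?_
    rw [map_smul, smul_eq_mul, mul_pow, ha i, ← map_pow, hid _ (h1 i), map_sum, Finset.mul_sum]
  -- STEP 2
  let φ' : L1 →ₗ[k1] L1 := φ ∘ₗ LinearMap.mulLeft k1 (algebraMap L L1 g)
  let Φ' : L1 →ₗ[k1] L1 := ∑ s, (Φ s) ∘ₗ LinearMap.mulLeft k1
    (algebraMap L L1 (β s) * algebraMap L L1 c)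
  have hφ'v : ∀ z, φ' z = φ (algebraMap L L1 g * z) := fun z => rfl
  have hΦ'v : ∀ z, Φ' z = ∑ s, Φ s (algebraMap L L1 (β s) * algebraMap L L1 c * z) := by
    intro z
    simp only [Φ', LinearMap.sum_apply, LinearMap.comp_apply, LinearMap.mulLeft_apply]
  intro σ hσ
  rw [← hΦ'v] at hσ
  rw [← hφ'v]
  refine hCART O k1 L1 ι p e t X D ψ φ' Φ' hp hk1 ht hM1 hψ hind hcov ?_ ?_ ?_ σ hσ
  · intro l z
    rw [hφ'v, hφ'v, mul_left_comm, hφ]
  · intro l z
    rw [hΦ'v, hΦ'v, Finset.mul_sum]
    refine Finset.sum_congr rfl fun s _ => ?_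
    rw [mul_left_comm, hΦ]
  · intro h f hf
    -- first expansion
    have hgf : algebraMap L L1 g * f ∈ (VV k1 X) ^ (m + h) := by
      rw [pow_add]
      exact Submodule.mul_mem_mul hgm hf
    obtain ⟨C1, hC1, hC1'⟩ := phiSum_finsupp ψ ell1 0 (m + h) (algebraMap L L1 g * f)
    -- second expansions
    have hCs : ∀ s, ∃ C : (Fin D → ℕ) →₀ k1,
        Φ s (algebraMap L L1 (β s) * algebraMap L L1 c * f ^ q) = C.sum (fun a r => r • mon ψ a) ∧
        ∀ a, C a = if ((∑ l, a l : ℕ) : ℤ) = (q : ℤ) * m + q * h - D then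
          χ1 s (algebraMap L L1 (β s) * algebraMap L L1 c * f ^ q *
            monz ψ (fun l => -(a l : ℤ) - 1)) else 0 := by
      intro s
      rcases hβ s with h0 | ⟨e', he', h0⟩
      · refine ⟨0, ?_, fun a => ?_⟩
        · rw [h0]
          simp
        · rw [h0]
          simp
      · have hβm := map_mem_pow (k := k) (k1 := k1) (L := L) (L1 := L1) x e' (β s) h0
        have hmem : algebraMap L L1 (β s) * algebraMap L L1 c * f ^ q ∈
            (VV k1 X) ^ (e' + M + h * q) := by
          rw [pow_add, pow_add, pow_mul]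
          exact Submodule.mul_mem_mul (Submodule.mul_mem_mul hβm hcm)
            (Submodule.pow_mem_pow _ hf _)
        obtain ⟨C, hC, hC'⟩ := phiSum_finsupp ψ (χ1 s) (-(d s)) (e' + M + h * q)
          (algebraMap L L1 (β s) * algebraMap L L1 c * f ^ q)
        refine ⟨C, ?_, fun a => ?_⟩
        · rw [hΦs s _ _ hmem, hC]
        · rw [hC' a]
          have h9 : ((e' + M + h * q : ℕ) : ℤ) - D - -(d s) = (q : ℤ) * m + q * h - D := by
            push_cast
            have : (e' : ℤ) = (q : ℤ) * m - M - d s := by linarith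
            rw [this]
            ring
          rw [h9]
    choose Cs hCs1 hCs2 using hCs
    refine ⟨C1, ∑ s, Cs s, ?_, ?_, ?_⟩
    · rw [hφ'v, hφs _ _ hgf, hC1]
    · rw [hΦ'v]
      rw [← Finsupp.sum_finsetSum_index]
      · exact Finset.sum_congr rfl fun s _ => hCs1 s
      · intro a
        rw [zero_smul]
      · intro a r r'
        rw [add_smul]
    · intro a
      rw [Finsupp.finsetSum_apply, hC1' a]
      have hcond : ((∑ l, (q * a l + (q - 1)) : ℕ) : ℤ) = (q : ℤ) * m + q * h - D ↔
          ((∑ l, a l : ℕ) : ℤ) = ((m + h : ℕ) : ℤ) - D - 0 := by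
        have h10 : ((∑ l, (q * a l + (q - 1)) : ℕ) : ℤ) =
            q * ((∑ l, a l : ℕ) : ℤ) + D * (q - 1) := by
          push_cast
          rw [Finset.sum_add_distrib, ← Finset.mul_sum, Finset.sum_const, Finset.card_univ,
            Fintype.card_fin, Nat.cast_sub hq0, nsmul_eq_mul]
          push_cast
          ring
        rw [h10]
        have hqz : (0 : ℤ) < q := by exact_mod_cast hq0
        constructor
        · intro h11
          have h12 : (q : ℤ) * (((∑ l, a l : ℕ) : ℤ) - (((m + h : ℕ) : ℤ) - D - 0)) = 0 := by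
            push_cast at h11 ⊢
            linarith
          rcases mul_eq_zero.1 h12 with h13 | h13
          · exact absurd h13 hqz.ne'
          · linarith
        · intro h11
          rw [h11]
          push_cast
          ring
      by_cases hc2 : ((∑ l, a l : ℕ) : ℤ) = ((m + h : ℕ) : ℤ) - D - 0
      · rw [if_pos hc2]
        have hterm : ∀ s, (Cs s) (fun l => p ^ e * a l + (p ^ e - 1)) =
            χ1 s (algebraMap L L1 (β s) * algebraMap L L1 c *
              (f * monz ψ (fun l => -(a l : ℤ) - 1)) ^ q) := by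
          intro s
          rw [hCs2 s, if_pos (hcond.2 hc2)]
          congr 1
          have h14 : monz ψ (fun l => -((p ^ e * a l + (p ^ e - 1) : ℕ) : ℤ) - 1) =
              (monz ψ (fun l => -(a l : ℤ) - 1)) ^ q := by
            rw [monz, monz, ← Finset.prod_pow]
            refine Finset.prod_congr rfl fun l _ => ?_
            rw [← zpow_natCast, ← zpow_mul]
            congr 1
            rw [← hq]
            push_cast [Nat.cast_sub hq0]
            ring
          rw [h14, mul_pow, mul_assoc (algebraMap L L1 (β s) * algebraMap L L1 c)]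
        rw [Finset.sum_congr rfl (fun s _ => hterm s), ← E1]
        · rw [mul_assoc]
        · refine sec_monz hψ hψ0 hf a ?_
          rw [hc2]
          push_cast
          ring
      · rw [if_neg hc2, zero_pow hq0.ne']
        refine Finset.sum_eq_zero fun s _ => ?_
        rw [hCs2 s, if_neg]
        intro h15
        exact hc2 (hcond.1 h15)

end Pool.Agent.Y864.GS
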