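import Pool.Agent.Y234.GS.StmA

/-!
# Project GS: rank identities from exactness (job RANK)
-/

set_option autoImplicit false
set_option linter.unusedSectionVars false

namespace Pool.Agent.Y864.GS

open Pool.Agent.Y234.GS

section minors

variable {F : Type*} [Field F] {m n : Type*} [Fintype m] [Fintype n]

private theorem exists_rows (B : Matrix m n F) :
    ∃ e : Fin B.rank → m, LinearIndependent F (B.submatrix e id).row := by
  have h := Submodule.exists_fun_fin_finrank_span_eq F (Set.range B.row)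
  rw [← B.rank_eq_finrank_span_row] at h
  obtain ⟨f, hf, -, hli⟩ := h
  choose e he using hf
  refine ⟨e, ?_⟩
  have : (B.submatrix e id).row = f := by
    funext i
    rw [← he i]
    rfl
  rw [this]
  exact hli

private theorem exists_minor (B : Matrix m n F) :
    ∃ (e : Fin B.rank → m) (f : Fin B.rank → n), (B.submatrix e f).det ≠ 0 := by
  obtain ⟨e, he⟩ := exists_rows B
  have h1 : (B.submatrix e id).rank = B.rank := by
    rw [he.rank_matrix, Fintype.card_fin]
  have h2 : (B.submatrix e id).transpose.rank = B.rank := by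
    rw [Matrix.rank_transpose, h1]
  obtain ⟨f, hf⟩ := exists_rows (B.submatrix e id).transpose
  refine ⟨e, f ∘ finCongr h2.symm, ?_⟩
  have h3 : LinearIndependent F (B.submatrix e (f ∘ finCongr h2.symm)).transpose.row := by
    have := hf.comp (finCongr h2.symm) (finCongr h2.symm).injective
    exact this
  have h4 := Matrix.linearIndependent_rows_iff_isUnit.1 h3
  rw [Matrix.isUnit_iff_isUnit_det, Matrix.det_transpose] at h4
  exact h4.ne_zero

private theorem le_rank_of_minor {r : Type*} [Fintype r] [DecidableEq r] (B : Matrix m n F)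
    (e : r → m) (f : r → n) (h : (B.submatrix e f).det ≠ 0) : Fintype.card r ≤ B.rank := by
  have h1 := Matrix.rank_of_det_ne_zero h
  rw [← h1]
  exact Matrix.rank_submatrix_le B e f

end minors

/-- an integer matrix: the rank over `k` is at most the rank over `K` if every integer that is zero
in `K` is zero in `k` -/
theorem rank_cast_le {k K : Type*} [Field k] [Field K] {m n : Type*} [Fintype m] [Fintype n]
    (Z : Matrix m n ℤ) (h : ∀ z : ℤ, (z : K) = 0 → (z : k) = 0) :
    (Z.map (Int.castRingHom k)).rank ≤ (Z.map (Int.castRingHom K)).rank := by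
  classical
  obtain ⟨e, f, hd⟩ := exists_minor (Z.map (Int.castRingHom k))
  have h1 : ((Z.map (Int.castRingHom k)).submatrix e f).det
      = Int.castRingHom k (Z.submatrix e f).det := by
    rw [RingHom.map_det]
    rfl
  have h2 : ((Z.map (Int.castRingHom K)).submatrix e f).det
      = Int.castRingHom K (Z.submatrix e f).det := by
    rw [RingHom.map_det]
    rfl
  have h3 : ((Z.map (Int.castRingHom K)).submatrix e f).det ≠ 0 := by
    rw [h2]
    intro h0
    apply hd
    rw [h1]
    exact h _ h0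
  have h4 := le_rank_of_minor _ e f h3
  rwa [Fintype.card_fin] at h4

/-- rank from exactness -/
theorem card_le_of_exact {k : Type*} [Field k] {l m n : Type*} [Fintype l] [Fintype m] [Fintype n]
    (B : Matrix l m k) (A : Matrix m n k)
    (h : ∀ v : m → k, Matrix.vecMul v A = 0 → ∃ u : l → k, v = Matrix.vecMul u B) :
    Fintype.card m ≤ A.rank + B.rank := by
  have h1 := LinearMap.finrank_range_add_finrank_ker (Matrix.vecMulLinear A)
  rw [Module.finrank_fintype_fun_eq_card, range_vecMulLinear,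
    ← Matrix.rank_eq_finrank_span_row] at h1
  have h2 : Module.finrank k (LinearMap.ker (Matrix.vecMulLinear A)) ≤ B.rank := by
    rw [Matrix.rank_eq_finrank_span_row, ← range_vecMulLinear]
    apply Submodule.finrank_mono
    intro v hv
    obtain ⟨u, hu⟩ := h v (by simpa using hv)
    exact ⟨u, by rw [hu]; rfl⟩
  omega

theorem card_le_of_inj {k : Type*} [Field k] {m n : Type*} [Fintype m] [Fintype n]
    (A : Matrix m n k)
    (h : ∀ v : m → k, Matrix.vecMul v A = 0 → v = 0) :
    Fintype.card m ≤ A.rank := by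
  have h1 := LinearMap.finrank_range_add_finrank_ker (Matrix.vecMulLinear A)
  rw [Module.finrank_fintype_fun_eq_card, range_vecMulLinear,
    ← Matrix.rank_eq_finrank_span_row] at h1
  have h2 : LinearMap.ker (Matrix.vecMulLinear A) = ⊥ := by
    rw [LinearMap.ker_eq_bot']
    intro v hv
    exact h v (by simpa using hv)
  rw [h2, finrank_bot] at h1
  omega

section dd

variable {ι L : Type} [LinearOrder ι] [AddCommGroup L]

/-- the number of elements of `T` below `i` -/
private def nb (T : Finset ι) (i : ι) : ℕ := (T.filter (fun u => u < i)).card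

private theorem nb_erase_lt {T : Finset ι} {i l : ι} (h : l < i) : nb (T.erase i) l = nb T l := by
  unfold nb
  congr 1
  ext u
  simp only [Finset.mem_filter, Finset.mem_erase]
  constructor
  · rintro ⟨⟨-, h1⟩, h2⟩
    exact ⟨h1, h2⟩
  · rintro ⟨h1, h2⟩
    exact ⟨⟨fun e => absurd h (not_lt.2 (e ▸ h2.le)), h1⟩, h2⟩

private theorem nb_erase_gt {T : Finset ι} {i l : ι} (hl : l ∈ T) (h : l < i) :
    nb (T.erase l) i + 1 = nb T i := by
  unfold nb
  rw [← Finset.card_erase_add_one (s := T.filter (fun u => u < i)) (a := l)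
    (by simp [hl, h])]
  congr 2
  ext u
  simp only [Finset.mem_filter, Finset.mem_erase]
  tauto

/-- `dd` is a differential. -/
theorem dd_dd (c : Finset ι → L) (T : Finset ι) : dd (dd c) T = 0 := by
  classical
  unfold dd
  simp only [Finset.smul_sum]
  rw [Finset.sum_sigma']
  refine Finset.sum_involution (fun x _ => ⟨x.2, x.1⟩) ?_ ?_ ?_ ?_
  · rintro ⟨i, l⟩ hx
    simp only [Finset.mem_sigma, Finset.mem_erase] at hx
    obtain ⟨hi, hne, hl⟩ := hx
    simp only []
    have hc : (T.erase l).erase i = (T.erase i).erase l := by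
      rw [Finset.erase_right_comm]
    rw [hc]
    simp only [smul_smul, ← pow_add]
    rw [← add_smul]
    change ((-1 : ℤ) ^ (nb T i + nb (T.erase i) l) + (-1 : ℤ) ^ (nb T l + nb (T.erase l) i)) • _ = 0
    rcases lt_or_gt_of_ne hne with h | h
    · rw [nb_erase_lt h, ← nb_erase_gt hl h]
      rw [show nb (T.erase l) i + 1 + nb T l = (nb T l + nb (T.erase l) i) + 1 by ring, pow_succ]
      simp
    · rw [nb_erase_lt h, ← nb_erase_gt hi h]
      rw [show nb (T.erase i) l + 1 + nb T i = (nb T i + nb (T.erase i) l) + 1 by ring, pow_succ]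
      simp
  · rintro ⟨i, l⟩ hx _ he
    simp only [Finset.mem_sigma, Finset.mem_erase] at hx
    have := congrArg Sigma.fst he
    exact hx.2.1 this
  · rintro ⟨i, l⟩ hx
    simp only [Finset.mem_sigma, Finset.mem_erase] at hx ⊢
    exact ⟨hx.2.2, fun e => hx.2.1 e.symm, hx.1⟩
  · rintro ⟨i, l⟩ hx
    rfl

end dd

section main

variable {n : ℕ}

/-- the integer matrix -/
private def zmat (L : Finset (Finset (Fin n))) (j : ℕ) :
    Matrix {G // G ∈ L.filter (fun G => G.card = j)}
      {F // F ∈ L.filter (fun F => F.card = j + 1)} ℤ :=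
  Matrix.of fun G F => if G.1 ⊆ F.1 then
    (-1 : ℤ) ^ ((G.1.filter (fun u => ∀ w ∈ F.1 \ G.1, u < w)).card) else 0

private theorem bmat_eq (K : Type) [Field K] (L : Finset (Finset (Fin n))) (j : ℕ) :
    bmat K L j = (zmat L j).map (Int.castRingHom K) := by
  ext G F
  simp only [bmat, zmat, Matrix.of_apply, Matrix.map_apply]
  split_ifs <;> simp

private theorem filt_eq {F : Finset (Fin n)} {i : Fin n} (hi : i ∈ F) :
    (F.erase i).filter (fun u => ∀ w ∈ F \ F.erase i, u < w) = F.filter (fun u => u < i) := by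
  ext u
  simp only [Finset.mem_filter, Finset.mem_erase, Finset.mem_sdiff, not_and]
  constructor
  · rintro ⟨⟨h1, h2⟩, h3⟩
    exact ⟨h2, h3 i ⟨hi, fun h => absurd rfl h⟩⟩
  · rintro ⟨h1, h2⟩
    refine ⟨⟨h2.ne, h1⟩, fun w hw => ?_⟩
    by_cases hwi : w = i
    · rw [hwi]; exact h2
    · exact absurd hw.1 (hw.2 hwi)

private theorem vecMul_eq {K : Type} [Field K] (L : Finset (Finset (Fin n)))
    (hL : ∀ G ∈ L, ∀ G' ⊆ G, G' ∈ L) (j : ℕ)
    [Fintype {G // G ∈ L.filter (fun G => G.card = j)}]
    (γ : Finset (Fin n) → K) (v : {G // G ∈ L.filter (fun G => G.card = j)} → K)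
    (hv : ∀ G, v G = γ G.1)
    (T : {F // F ∈ L.filter (fun F => F.card = j + 1)}) :
    Matrix.vecMul v (bmat K L j) T = dd γ T.1 := by
  classical
  obtain ⟨T, hT⟩ := T
  have hT' := Finset.mem_filter.1 hT
  simp only [Matrix.vecMul, dotProduct, bmat, Matrix.of_apply, dd]
  symm
  refine Finset.sum_bij_ne_zero (fun i hi _ => ⟨T.erase i, Finset.mem_filter.2
    ⟨hL T hT'.1 _ (Finset.erase_subset _ _), by
      rw [Finset.card_erase_of_mem hi, hT'.2]; rfl⟩⟩) ?_ ?_ ?_ ?_
  · intro i hi _
    simp only [Finset.mem_univ]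
  · intro i hi _ l hl _ h
    have h1 : T.erase i = T.erase l := congrArg Subtype.val h
    by_contra hne
    have h2 : l ∈ T.erase i := Finset.mem_erase.2 ⟨fun h => hne h.symm, hl⟩
    rw [h1] at h2
    exact absurd rfl (Finset.mem_erase.1 h2).1
  · intro G _ hG
    have h0 : G.1 ⊆ T := by
      by_contra h
      rw [if_neg h, mul_zero] at hG
      exact hG rfl
    have hGc := (Finset.mem_filter.1 G.2).2
    have h1 : (T \ G.1).card = 1 := by
      rw [Finset.card_sdiff_of_subset h0, hT'.2, hGc]
      omega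
    obtain ⟨i, hi⟩ := Finset.card_eq_one.1 h1
    have hiT : i ∈ T := (Finset.mem_sdiff.1 (hi ▸ Finset.mem_singleton_self i)).1
    have hGi : T.erase i = G.1 := by
      rw [← Finset.sdiff_singleton_eq_erase, ← hi, Finset.sdiff_sdiff_eq_self h0]
    refine ⟨i, hiT, ?_, Subtype.ext hGi⟩
    rw [if_pos h0, hv] at hG
    rw [hGi]
    intro h
    apply hG
    have h2 : γ G.1 = 0 := by
      rcases neg_one_pow_eq_or ℤ ((T.filter (fun u => u < i)).card) with e | e
      · rw [e, one_smul] at h; exact h
      · rw [e, neg_smul, one_smul, neg_eq_zero] at h; exact h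
    rw [h2, zero_mul]
  · intro i hi _
    rw [if_pos (Finset.erase_subset _ _), hv, filt_eq hi, mul_comm, zsmul_eq_mul]
    simp

private theorem dd_map {K : Type} [Field K] {Δ : Finset (Finset (Fin n))}
    (γ : Finset (Fin n) → K) (S : Finset (Vert Δ)) :
    dd (fun S : Finset (Vert Δ) => γ (S.map (Function.Embedding.subtype _))) S =
      dd γ (S.map (Function.Embedding.subtype _)) := by
  unfold dd
  rw [Finset.sum_map]
  refine Finset.sum_congr rfl fun i _ => ?_
  have e1 : (S.map (Function.Embedding.subtype (fun i => ({i} : Finset (Fin n)) ∈ Δ))).erase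
      (Function.Embedding.subtype (fun i => ({i} : Finset (Fin n)) ∈ Δ) i) =
      (S.erase i).map (Function.Embedding.subtype (fun i => ({i} : Finset (Fin n)) ∈ Δ)) := by
    ext x
    simp only [Finset.mem_erase, Finset.mem_map, Function.Embedding.subtype_apply]
    constructor
    · rintro ⟨h1, y, hy, rfl⟩
      exact ⟨y, ⟨fun h => h1 (by rw [h]), hy⟩, rfl⟩
    · rintro ⟨y, ⟨h1, hy⟩, rfl⟩
      exact ⟨fun h => h1 (Subtype.ext h), y, hy, rfl⟩
  rw [e1, Finset.filter_map, Finset.card_map]
  rfl

private theorem exact_of_lk {k : Type} [Field k] (Δ : Finset (Finset (Fin n)))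
    (hdown : ∀ F ∈ Δ, ∀ G : Finset (Fin n), G ⊆ F → G ∈ Δ)
    (F : Finset (Vert Δ)) (j : ℕ) (h : LkExact k (subc Δ) F j) (γ : Finset (Fin n) → k)
    (hγ : ∀ T : Finset (Fin n), T ∩ F.map (Function.Embedding.subtype _) = ∅ →
      T ∪ F.map (Function.Embedding.subtype _) ∈ Δ → T.card = j + 1 → dd γ T = 0) :
    ∃ β : Finset (Fin n) → k, ∀ G : Finset (Fin n),
      G ∩ F.map (Function.Embedding.subtype _) = ∅ →
      G ∪ F.map (Function.Embedding.subtype _) ∈ Δ → G.card = j → γ G = dd β G := by
  classical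
  obtain ⟨β', hβ'⟩ := h (fun S => γ (S.map (Function.Embedding.subtype _))) (by
    intro T h1 h2 h3
    rw [dd_map]
    apply hγ
    · rw [Finset.eq_empty_iff_forall_notMem] at h1 ⊢
      intro x hx
      obtain ⟨hx1, hx2⟩ := Finset.mem_inter.1 hx
      obtain ⟨y, hy, rfl⟩ := Finset.mem_map.1 hx1
      obtain ⟨z, hz, hyz⟩ := Finset.mem_map.1 hx2
      have hzy : z = y := Subtype.ext hyz
      rw [hzy] at hz
      exact h1 y (Finset.mem_inter.2 ⟨hy, hz⟩)
    · have h4 := (Finset.mem_filter.1 h2).2
      convert h4 using 1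
      ext x
      simp only [Finset.mem_union, Finset.mem_map]
      constructor
      · rintro (⟨y, hy, rfl⟩ | ⟨y, hy, rfl⟩)
        · exact ⟨y, Or.inl hy, rfl⟩
        · exact ⟨y, Or.inr hy, rfl⟩
      · rintro ⟨y, hy | hy, rfl⟩
        · exact Or.inl ⟨y, hy, rfl⟩
        · exact Or.inr ⟨y, hy, rfl⟩
    · rw [Finset.card_map, h3])
  refine ⟨fun G => β' (G.subtype (fun i => ({i} : Finset (Fin n)) ∈ Δ)), ?_⟩
  intro G h1 h2 h3
  have hG : G ∈ Δ := hdown _ h2 _ Finset.subset_union_left
  have hv : ∀ x ∈ G, ({x} : Finset (Fin n)) ∈ Δ := fun x hx =>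
    hdown _ hG _ (Finset.singleton_subset_iff.2 hx)
  have hm := Finset.subtype_map_of_mem hv
  have hsub : ∀ S : Finset (Vert Δ), (S.map (Function.Embedding.subtype _)).subtype
      (fun i => ({i} : Finset (Fin n)) ∈ Δ) = S := by
    intro S
    ext x
    simp only [Finset.mem_subtype, Finset.mem_map, Function.Embedding.subtype_apply]
    constructor
    · rintro ⟨y, hy, hyx⟩
      rwa [← Subtype.ext hyx]
    · exact fun hx => ⟨x, hx, rfl⟩
  have h4 := hβ' (G.subtype (fun i => ({i} : Finset (Fin n)) ∈ Δ)) (by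
      rw [Finset.eq_empty_iff_forall_notMem] at h1 ⊢
      intro x hx
      obtain ⟨hx1, hx2⟩ := Finset.mem_inter.1 hx
      exact h1 x.1 (Finset.mem_inter.2 ⟨Finset.mem_subtype.1 hx1,
        Finset.mem_map.2 ⟨x, hx2, rfl⟩⟩)) (by
      refine Finset.mem_filter.2 ⟨Finset.mem_univ _, ?_⟩
      convert h2 using 1
      ext x
      simp only [Finset.mem_union, Finset.mem_map, Finset.mem_subtype,
        Function.Embedding.subtype_apply]
      constructor
      · rintro ⟨y, hy | hy, rfl⟩
        · exact Or.inl hy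
        · exact Or.inr ⟨y, hy, rfl⟩
      · rintro (hx | ⟨y, hy, rfl⟩)
        · exact ⟨⟨x, hv x hx⟩, Or.inl hx, rfl⟩
        · exact ⟨y, Or.inr hy, rfl⟩) (by
      rw [← Finset.card_map (Function.Embedding.subtype _), hm, h3])
  rw [hm] at h4
  rw [h4]
  have h5 := dd_map (Δ := Δ) (fun G => β' (G.subtype (fun i => ({i} : Finset (Fin n)) ∈ Δ)))
    (G.subtype (fun i => ({i} : Finset (Fin n)) ∈ Δ))
  rw [hm] at h5
  rw [← h5]
  simp only [hsub]

private theorem mul_zero' {K : Type} [Field K] (L : Finset (Finset (Fin n)))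
    (hL : ∀ G ∈ L, ∀ G' ⊆ G, G' ∈ L) (j : ℕ)
    [Fintype {G // G ∈ L.filter (fun G => G.card = j)}]
    [Fintype {G // G ∈ L.filter (fun G => G.card = j + 1)}]
    (u : {G // G ∈ L.filter (fun G => G.card = j)} → K) :
    Matrix.vecMul (Matrix.vecMul u (bmat K L j)) (bmat K L (j + 1)) = 0 := by
  classical
  let β : Finset (Fin n) → K := fun G => if h : G ∈ L.filter (fun G => G.card = j) then u ⟨G, h⟩
    else 0
  have hβ : ∀ G, u G = β G.1 := fun G => by
    show u G = if h : G.1 ∈ _ then u ⟨G.1, h⟩ else 0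
    rw [dif_pos G.2]
  funext T
  have h := vecMul_eq L hL (j + 1) (dd β) _ (fun G => vecMul_eq L hL j β u hβ G) T
  rw [dd_dd] at h
  exact h

/-- exactness over a field of characteristic `p` gives the rank identity over fields of
characteristic `p` or `0` -/
theorem rank : S_RANK := by
  intro k K _ _ p n Δ F j hp hk hK hdown hF hex
  set F' := F.map (Function.Embedding.subtype (fun i => ({i} : Finset (Fin n)) ∈ Δ)) with hF'
  set L := Δ.filter (fun G => G ∩ F' = ∅ ∧ G ∪ F' ∈ Δ) with hLdef
  have hL : ∀ G ∈ L, ∀ G' ⊆ G, G' ∈ L := by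
    intro G hG G' hG'
    obtain ⟨h1, h2, h3⟩ := Finset.mem_filter.1 hG
    refine Finset.mem_filter.2 ⟨hdown _ h1 _ hG', ?_, ?_⟩
    · rw [← Finset.subset_empty, ← h2]
      exact Finset.inter_subset_inter_right hG'
    · exact hdown _ h3 _ (Finset.union_subset_union_left hG')
  have hint : ∀ z : ℤ, (z : K) = 0 → (z : k) = 0 := by
    intro z hz
    rcases hK with hK | hK
    · rw [CharP.intCast_eq_zero_iff K p] at hz
      rw [CharP.intCast_eq_zero_iff k p]
      exact hz
    · have : z = 0 := by exact_mod_cast hz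
      rw [this, Int.cast_zero]
  have hle : ∀ i, (bmat k L i).rank ≤ (bmat K L i).rank := by
    intro i
    rw [bmat_eq, bmat_eq]
    exact rank_cast_le _ hint
  have hcard : @Fintype.card {G // G ∈ L.filter (fun G => G.card = j)}
      (Finset.Subtype.fintype _) = (L.filter (fun G => G.card = j)).card := Fintype.card_coe _
  have hmemL : ∀ G : Finset (Fin n), G ∩ F' = ∅ → G ∪ F' ∈ Δ → G ∈ L := fun G h1 h2 =>
    Finset.mem_filter.2 ⟨hdown _ h2 _ Finset.subset_union_left, h1, h2⟩
  have hexk : ∀ v : {G // G ∈ L.filter (fun G => G.card = j)} → k,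
      @Matrix.vecMul _ _ _ _ (Finset.Subtype.fintype _) v (bmat k L j) = 0 →
        ∃ β : Finset (Fin n) → k, ∀ G, v G = dd β G.1 := by
    intro v hv
    let γ : Finset (Fin n) → k := fun G => if h : G ∈ L.filter (fun G => G.card = j) then v ⟨G, h⟩
      else 0
    have hγ : ∀ G, v G = γ G.1 := fun G => by
      show v G = if h : G.1 ∈ _ then v ⟨G.1, h⟩ else 0
      rw [dif_pos G.2]
    obtain ⟨β, hβ⟩ := exact_of_lk Δ hdown F j hex γ (by
      intro T h1 h2 h3
      have hT : T ∈ L.filter (fun G => G.card = j + 1) := Finset.mem_filter.2 ⟨hmemL T h1 h2, h3⟩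
      have h0 : @Matrix.vecMul _ _ _ _ (Finset.Subtype.fintype _) v (bmat k L j) ⟨T, hT⟩ =
          dd γ T := @vecMul_eq n k _ L hL j (Finset.Subtype.fintype _) γ v hγ ⟨T, hT⟩
      rw [← h0, hv]
      rfl)
    refine ⟨β, fun G => ?_⟩
    obtain ⟨h1, h2⟩ := Finset.mem_filter.1 G.2
    obtain ⟨-, h3, h4⟩ := Finset.mem_filter.1 h1
    rw [hγ]
    exact hβ G.1 h3 h4 h2
  rcases j with _ | j
  · rw [if_pos rfl, add_zero]
    apply le_antisymm
    · rw [← hcard]
      refine (card_le_of_inj (bmat k L 0) ?_).trans (hle 0)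
      intro v hv
      obtain ⟨β, hβ⟩ := hexk v hv
      funext G
      rw [hβ G]
      have h0 : G.1 = ∅ := Finset.card_eq_zero.1 (Finset.mem_filter.1 G.2).2
      rw [h0]
      simp [dd]
    · rw [← hcard]
      exact Matrix.rank_le_card_height _
  · rw [if_neg (Nat.succ_ne_zero j), Nat.add_sub_cancel]
    apply le_antisymm
    · rw [← hcard]
      refine (card_le_of_exact (bmat k L j) (bmat k L (j + 1)) ?_).trans
        (Nat.add_le_add (hle _) (hle _))
      intro v hv
      obtain ⟨β, hβ⟩ := hexk v hv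
      refine ⟨fun G => β G.1, ?_⟩
      funext G
      rw [hβ G, vecMul_eq L hL j β _ (fun _ => rfl) G]
    · rw [← hcard, add_comm]
      refine Matrix.rank_add_rank_le_card_of_mul_eq_zero ?_
      ext a b
      have h := congrFun (mul_zero' L hL j (Pi.single a (1 : K))) b
      rw [Matrix.vecMul_vecMul, Matrix.single_one_vecMul] at h
      exact h

end main

end Pool.Agent.Y864.GS
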