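import Pool.Agent.Y234.GS.StmC
import Pool.Agent.Y340.GS.Ref
import Pool.Agent.Y968.GS.Top
import Pool.Agent.Y978.GS.Base
import Pool.Agent.Y864.GS.Klh

/-!
# Project GS: the induction step with hyperplane sections (job HYPST)
-/

set_option autoImplicit false
set_option linter.unusedSectionVars false

namespace Pool.Agent.Y864.GS

open Pool.Agent.Y234.GS MvPolynomial

section im

variable {K L M ι : Type} [Field K] [Field L] [Algebra K L] [Field M] [Algebra K M] [Fintype ι]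
  {X : ι → L} {y : ι → M}

variable (K) in
/-- `z'` is the image of `z` under the specialization `X i ↦ y i` -/
def Im (X : ι → L) (y : ι → M) (z : L) (z' : M) : Prop :=
  ∃ G H : MvPolynomial ι K, aeval y H ≠ 0 ∧ z * aeval X H = aeval X G ∧
    z' * aeval y H = aeval y G

theorem Im.unique (hker : ∀ G : MvPolynomial ι K, aeval X G = 0 → aeval y G = 0) {z : L}
    {z1 z2 : M} (h1 : Im K X y z z1) (h2 : Im K X y z z2) : z1 = z2 := by
  obtain ⟨G, H, a1, a2, a3⟩ := h1
  obtain ⟨G', H', b1, b2, b3⟩ := h2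
  have h3 : aeval X (G * H' - G' * H) = 0 := by
    rw [map_sub, map_mul, map_mul, ← a2, ← b2]
    ring
  have h4 := hker _ h3
  rw [map_sub, map_mul, map_mul, ← a3, ← b3, sub_eq_zero] at h4
  have h5 : (z1 - z2) * (aeval y H * aeval y H') = 0 := by
    linear_combination h4
  rcases mul_eq_zero.1 h5 with h6 | h6
  · exact sub_eq_zero.1 h6
  · exact absurd h6 (mul_ne_zero a1 b1)

theorem Im.add {z1 z2 : L} {w1 w2 : M} (h1 : Im K X y z1 w1) (h2 : Im K X y z2 w2) :
    Im K X y (z1 + z2) (w1 + w2) := by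
  obtain ⟨G, H, a1, a2, a3⟩ := h1
  obtain ⟨G', H', b1, b2, b3⟩ := h2
  refine ⟨G * H' + G' * H, H * H', ?_, ?_, ?_⟩
  · rw [map_mul]
    exact mul_ne_zero a1 b1
  · rw [map_add, map_mul, map_mul, map_mul, ← a2, ← b2]
    ring
  · rw [map_add, map_mul, map_mul, map_mul, ← a3, ← b3]
    ring

theorem Im.mul {z1 z2 : L} {w1 w2 : M} (h1 : Im K X y z1 w1) (h2 : Im K X y z2 w2) :
    Im K X y (z1 * z2) (w1 * w2) := by
  obtain ⟨G, H, a1, a2, a3⟩ := h1
  obtain ⟨G', H', b1, b2, b3⟩ := h2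
  refine ⟨G * G', H * H', ?_, ?_, ?_⟩
  · rw [map_mul]
    exact mul_ne_zero a1 b1
  · rw [map_mul, map_mul, ← a2, ← b2]
    ring
  · rw [map_mul, map_mul, ← a3, ← b3]
    ring

theorem Im.zsmul {z : L} {w : M} (n : ℤ) (h : Im K X y z w) : Im K X y (n • z) (n • w) := by
  obtain ⟨G, H, a1, a2, a3⟩ := h
  refine ⟨n • G, H, a1, ?_, ?_⟩
  · rw [map_zsmul, ← a2, smul_mul_assoc]
  · rw [map_zsmul, ← a3, smul_mul_assoc]

theorem Im.poly (G : MvPolynomial ι K) : Im K X y (aeval X G) (aeval y G) :=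
  ⟨G, 1, by simp, by simp, by simp⟩

theorem Im.zero : Im K X y 0 0 := by
  have h := Im.poly (K := K) (X := X) (y := y) 0
  simpa using h

theorem Im.sub {z1 z2 : L} {w1 w2 : M} (h1 : Im K X y z1 w1) (h2 : Im K X y z2 w2) :
    Im K X y (z1 - z2) (w1 - w2) := by
  have h3 := h1.add (h2.zsmul (-1))
  simpa [sub_eq_add_neg] using h3

theorem Im.sum {J : Type} (s : Finset J) (f : J → L) (g : J → M)
    (h : ∀ j ∈ s, Im K X y (f j) (g j)) : Im K X y (∑ j ∈ s, f j) (∑ j ∈ s, g j) := by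
  classical
  induction s using Finset.induction_on with
  | empty => simpa using Im.zero
  | insert a s ha ih =>
    rw [Finset.sum_insert ha, Finset.sum_insert ha]
    exact (h a (Finset.mem_insert_self a s)).add
      (ih fun j hj => h j (Finset.mem_insert_of_mem hj))

theorem Im.dd [LinearOrder ι] {c : Finset ι → L} {c' : Finset ι → M} (S : Finset ι)
    (h : ∀ i ∈ S, Im K X y (c (S.erase i)) (c' (S.erase i))) :
    Im K X y (Pool.Agent.Y234.GS.dd c S) (Pool.Agent.Y234.GS.dd c' S) :=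
  Im.sum S _ _ fun i hi => (h i hi).zsmul _

theorem mem_VV_pow (e : ℕ) (z : L) (hz : z ∈ (VV K X) ^ e) :
    ∃ G : MvPolynomial ι K, G.IsHomogeneous e ∧ aeval X G = z := by
  induction e generalizing z with
  | zero =>
    rw [pow_zero, Submodule.mem_one] at hz
    obtain ⟨a, rfl⟩ := hz
    exact ⟨C a, isHomogeneous_C ι a, by simp⟩
  | succ e ih =>
    rw [pow_succ] at hz
    induction hz using Submodule.mul_induction_on' with
    | mem_mul_mem a ha b hb =>
      obtain ⟨G, h1, rfl⟩ := ih a ha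
      rw [VV, Submodule.mem_span_range_iff_exists_fun] at hb
      obtain ⟨r, rfl⟩ := hb
      refine ⟨G * ∑ i, C (r i) * MvPolynomial.X i, h1.mul ?_, ?_⟩
      · refine IsHomogeneous.sum _ _ _ fun i _ => ?_
        have h2 := (isHomogeneous_C ι (r i)).mul (isHomogeneous_X K i)
        simpa using h2
      · rw [map_mul, map_sum]
        congr 1
        refine Finset.sum_congr rfl fun i _ => ?_
        rw [map_mul, aeval_C, aeval_X, Algebra.smul_def]
    | add a _ b _ h h' =>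
      obtain ⟨G, h1, rfl⟩ := h
      obtain ⟨G', h2, rfl⟩ := h'
      exact ⟨G + G', h1.add h2, by rw [map_add]⟩

theorem aeval_mem_VV_pow {e : ℕ} {G : MvPolynomial ι K} (hG : G.IsHomogeneous e) :
    aeval X G ∈ (VV K X) ^ e := by
  rw [aeval_def, eval₂_eq']
  refine Submodule.sum_mem _ fun b hb => ?_
  rw [← Algebra.smul_def]
  refine Submodule.smul_mem _ _ ?_
  have h1 : deg (fun i => b i) = e := by
    have h2 := hG (mem_support_iff.1 hb)
    rw [← h2, deg, Finsupp.weight_apply, Finsupp.sum_fintype]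
    · simp
    · simp
  rw [← h1]
  exact Pool.Agent.Y978.GS.mon_mem_pow (K := K) (x := X) (fun i => b i)

theorem mem_WV_poly (w : ι → ℕ) (e : ℕ) (s : ℤ) (z : L) (hz : z ∈ WV K X w e s) :
    ∃ G : MvPolynomial ι K, aeval X G = z ∧ aeval y G ∈ WV K y w e s := by
  induction hz using Submodule.span_induction with
  | mem z hz =>
    obtain ⟨b, h1, h2, rfl⟩ := hz
    refine ⟨monomial (Finsupp.equivFunOnFinite.symm b) 1, ?_, ?_⟩
    · rw [aeval_monomial, map_one, one_mul, Finsupp.prod_fintype]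
      · rfl
      · simp
    · rw [aeval_monomial, map_one, one_mul, Finsupp.prod_fintype]
      · exact Submodule.subset_span ⟨b, h1, h2, rfl⟩
      · simp
  | zero => exact ⟨0, by simp, by simp⟩
  | add a b _ _ h h' =>
    obtain ⟨G, h1, h2⟩ := h
    obtain ⟨G', h3, h4⟩ := h'
    exact ⟨G + G', by rw [map_add, h1, h3], by rw [map_add]; exact Submodule.add_mem _ h2 h4⟩
  | smul r a _ h =>
    obtain ⟨G, h1, h2⟩ := h
    exact ⟨r • G, by rw [map_smul, h1], by rw [map_smul]; exact Submodule.smul_mem _ _ h2⟩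

theorem im_of_eq {z : L} {S : Finset ι} {N : ℕ} {G : MvPolynomial ι K}
    (hy : ∀ i ∈ S, y i ≠ 0) (h : (∏ i ∈ S, X i) ^ N * z = aeval X G) :
    Im K X y z (aeval y G / (∏ i ∈ S, y i) ^ N) := by
  have h0 : (∏ i ∈ S, y i) ^ N ≠ 0 := pow_ne_zero _ (Finset.prod_ne_zero_iff.2 hy)
  have e1 : ∀ {A : Type} [CommRing A] [Algebra K A] (f : ι → A),
      aeval f ((∏ i ∈ S, MvPolynomial.X i : MvPolynomial ι K) ^ N) = (∏ i ∈ S, f i) ^ N := by
    intro A _ _ f
    rw [map_pow, map_prod]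
    simp
  refine ⟨G, (∏ i ∈ S, MvPolynomial.X i) ^ N, ?_, ?_, ?_⟩
  · rw [e1]
    exact h0
  · rw [e1, mul_comm]
    exact h
  · rw [e1, div_mul_cancel₀ _ h0]

theorem im_sec {m : ℤ} {S : Finset ι} (hy : ∀ i ∈ S, y i ≠ 0) {z : L}
    (hz : z ∈ Sec (VV K X) X m S) : ∃ z' ∈ Sec (VV K y) y m S, Im K X y z z' := by
  obtain ⟨N, e, he, h⟩ := hz
  obtain ⟨G, hG, h1⟩ := mem_VV_pow e _ h
  have h0 : (∏ i ∈ S, y i) ^ N ≠ 0 := pow_ne_zero _ (Finset.prod_ne_zero_iff.2 hy)
  refine ⟨aeval y G / (∏ i ∈ S, y i) ^ N, ⟨N, e, he, ?_⟩, im_of_eq hy h1.symm⟩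
  rw [mul_div_cancel₀ _ h0]
  exact aeval_mem_VV_pow hG

theorem im_wsec {w : ι → ℕ} {m s : ℤ} {S : Finset ι} (hy : ∀ i ∈ S, y i ≠ 0) {z : L}
    (hz : z ∈ WSec K X w m s S) : ∃ z' ∈ WSec K y w m s S, Im K X y z z' := by
  obtain ⟨N, e, he, h⟩ := hz
  obtain ⟨G, h1, hG⟩ := mem_WV_poly (y := y) w _ _ _ h
  have h0 : (∏ i ∈ S, y i) ^ N ≠ 0 := pow_ne_zero _ (Finset.prod_ne_zero_iff.2 hy)
  refine ⟨aeval y G / (∏ i ∈ S, y i) ^ N, ⟨N, e, he, ?_⟩, im_of_eq hy h1.symm⟩
  rw [mul_div_cancel₀ _ h0]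
  exact hG

end im

section ext

variable {k k1 L L1 ι : Type} [Field k] [Field k1] [Field L] [Field L1] [Algebra k k1]
  [Algebra k L] [Algebra k L1] [Algebra k1 L1] [Algebra L L1] [IsScalarTower k k1 L1]
  [IsScalarTower k L L1]

theorem alg_sec (x : ι → L) {m : ℤ} {S : Finset ι} {a : L} (ha : a ∈ Sec (VV k x) x m S) :
    algebraMap L L1 a ∈ Sec (VV k1 (fun i => algebraMap L L1 (x i)))
      (fun i => algebraMap L L1 (x i)) m S := by
  obtain ⟨N, e, he, h⟩ := ha
  refine ⟨N, e, he, ?_⟩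
  have h2 := map_mem_pow (k := k) (k1 := k1) (L := L) (L1 := L1) x e _ h
  rw [map_mul, map_pow, map_prod] at h2
  exact h2

theorem alg_wsec [Fintype ι] (x : ι → L) (w : ι → ℕ) {m s : ℤ} {S : Finset ι} {a : L}
    (ha : a ∈ WSec k x w m s S) :
    algebraMap L L1 a ∈ WSec k1 (fun i => algebraMap L L1 (x i)) w m s S := by
  obtain ⟨N, e, he, h⟩ := ha
  refine ⟨N, e, he, ?_⟩
  have h2 : ∀ z ∈ WV k x w e (s + N * (∑ i ∈ S, (w i : ℤ))), algebraMap L L1 z ∈
      WV k1 (fun i => algebraMap L L1 (x i)) w e (s + N * (∑ i ∈ S, (w i : ℤ))) := by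
    intro z hz
    induction hz using Submodule.span_induction with
    | mem z hz =>
      obtain ⟨b, h1, h2, rfl⟩ := hz
      refine Submodule.subset_span ⟨b, h1, h2, ?_⟩
      rw [mon, map_prod]
      simp only [map_pow]
      rfl
    | zero =>
      rw [map_zero]
      exact Submodule.zero_mem _
    | add a b _ _ h h' =>
      rw [map_add]
      exact Submodule.add_mem _ h h'
    | smul r b _ h =>
      have h2 : algebraMap L L1 (r • b) = (algebraMap k k1 r) • algebraMap L L1 b := by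
        rw [Algebra.smul_def, map_mul, ← IsScalarTower.algebraMap_apply k L L1, Algebra.smul_def,
          ← IsScalarTower.algebraMap_apply k k1 L1]
      rw [h2]
      exact Submodule.smul_mem _ _ h
  have h3 := h2 _ h
  rw [map_mul, map_pow, map_prod] at h3
  exact h3

theorem alg_dd [LinearOrder ι] (c : Finset ι → L) (S : Finset ι) :
    algebraMap L L1 (dd c S) = dd (fun S => algebraMap L L1 (c S)) S := by
  unfold dd
  rw [map_sum]
  exact Finset.sum_congr rfl fun i _ => map_zsmul _ _ _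

/-- vanishing over a larger field -/
theorem van_ext (hBCH : S_BCH) [LinearOrder ι] [Fintype ι] (x : ι → L) (m : ℤ) (q : ℕ)
    (hdisj : Disj k k1 L L1) (hx : ∀ i, x i ≠ 0) (hq : 2 ≤ q) (hv : Van (VV k x) x m q) :
    Van (VV k1 (fun i => algebraMap L L1 (x i))) (fun i => algebraMap L L1 (x i)) m q := by
  classical
  intro z hz
  obtain ⟨h1, -⟩ := hBCH k k1 L L1 ι x m q hdisj hx (by omega)
  obtain ⟨n, r, c, -, hc, hsum⟩ := h1 z hz
  choose b hb hbd using fun i => hv (c i) (hc i)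
  refine ⟨fun S => ∑ i, r i • algebraMap L L1 (b i S), ?_, ?_⟩
  · intro S hS
    have hXV : ∀ i, algebraMap L L1 (x i) ∈ VV k1 (fun i => algebraMap L L1 (x i)) :=
      fun i => Submodule.subset_span ⟨i, rfl⟩
    refine Pool.Agent.Y340.GS.sec_sum _ _ hXV
      (Finset.card_pos.1 (by omega)) _ _ fun i _ => ?_
    exact Pool.Agent.Y968.GS.sec_smul _ _ _ _ _ _ (alg_sec x (hb i S hS))
  · intro S hS
    rw [hsum S hS, Pool.Agent.Y340.GS.dd_sum]
    refine Finset.sum_congr rfl fun i _ => ?_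
    rw [Pool.Agent.Y968.GS.dd_smul (r i) (fun S => algebraMap L L1 (b i S)) S, ← alg_dd,
      ← hbd i S hS]

end ext

section hsec

variable {K L ι C : Type} [Field K] [Field L] [Algebra K L] [LinearOrder ι] [Fintype ι]
  {X : ι → L} {u : ι → K} {Lc : C → Type} [∀ c, Field (Lc c)] [∀ c, Algebra K (Lc c)]
  {xc : ∀ c, ι → Lc c}

/-- lifting a family of cochains -/
theorem lift_coch (hS : HSec X u Lc xc) (hX : ∀ i, X i ≠ 0) (m : ℤ) (q : ℕ) (hq : 1 ≤ q)
    (y : ∀ c, Finset ι → Lc c)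
    (hy : ∀ c (S : Finset ι), S.card = q → (∀ i ∈ S, xc c i ≠ 0) →
      y c S ∈ Sec (VV K (xc c)) (xc c) m S) :
    ∃ z : Finset ι → L, Coch (VV K X) X m q z ∧
      ∀ c (S : Finset ι), S.card = q → (∀ i ∈ S, xc c i ≠ 0) → Im K X (xc c) (z S) (y c S) := by
  classical
  obtain ⟨-, -, -, h4, -⟩ := hS
  have h : ∀ S : Finset ι, ∃ z : L, S.card = q → (z ∈ Sec (VV K X) X m S ∧
      ∀ c, (∀ i ∈ S, xc c i ≠ 0) → Im K X (xc c) z (y c S)) := by
    intro S
    by_cases hSq : S.card = q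
    · obtain ⟨N, e, G, he, hG, h5⟩ := h4 m S (fun c => y c S) (Finset.card_pos.1 (by omega))
        (fun c hc => hy c S hSq hc)
      have h0 : (∏ i ∈ S, X i) ^ N ≠ 0 :=
        pow_ne_zero _ (Finset.prod_ne_zero_iff.2 fun i _ => hX i)
      have h6 : (∏ i ∈ S, X i) ^ N * (aeval X G / (∏ i ∈ S, X i) ^ N) = aeval X G :=
        mul_div_cancel₀ _ h0
      refine ⟨aeval X G / (∏ i ∈ S, X i) ^ N, fun _ => ⟨⟨N, e, he, ?_⟩, fun c hc => ?_⟩⟩
      · rw [h6]
        exact aeval_mem_VV_pow hG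
      · have h7 := im_of_eq (y := xc c) hc h6
        have h8 : (∏ i ∈ S, xc c i) ^ N ≠ 0 := pow_ne_zero _ (Finset.prod_ne_zero_iff.2 hc)
        rw [← h5 c hc, mul_div_cancel_left₀ _ h8] at h7
        exact h7
    · exact ⟨0, fun h => absurd h hSq⟩
  choose z hz using h
  exact ⟨z, fun S hSq => (hz S hSq).1, fun c S hSq hc => (hz S hSq).2 c hc⟩

/-- division by the linear form -/
theorem divide (hS : HSec X u Lc xc) (hX : ∀ i, X i ≠ 0) {m : ℤ} {S : Finset ι}
    (hne : S.Nonempty) {z : L} (hz : z ∈ Sec (VV K X) X m S)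
    (h0 : ∀ c, (∀ i ∈ S, xc c i ≠ 0) → Im K X (xc c) z 0) :
    ∃ z' ∈ Sec (VV K X) X (m - 1) S, z = (∑ i, u i • X i) * z' := by
  obtain ⟨h1, -, -, -, h5⟩ := hS
  obtain ⟨N, e, he, h⟩ := hz
  obtain ⟨G, hG, h2⟩ := mem_VV_pow e _ h
  have h3 : ∀ c, (∀ i ∈ S, xc c i ≠ 0) → aeval (xc c) G = 0 := by
    intro c hc
    have h6 := im_of_eq (y := xc c) hc h2.symm
    have h7 := (h0 c hc).unique (h1 c) h6
    have h8 : (∏ i ∈ S, xc c i) ^ N ≠ 0 := pow_ne_zero _ (Finset.prod_ne_zero_iff.2 hc)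
    rcases div_eq_zero_iff.1 h7.symm with h9 | h9
    · exact h9
    · exact absurd h9 h8
  obtain ⟨N', H, hH, hN', h10⟩ := h5 e S G hne hG h3
  have hP : ∀ n : ℕ, (∏ i ∈ S, X i) ^ n ≠ 0 := fun n =>
    pow_ne_zero _ (Finset.prod_ne_zero_iff.2 fun i _ => hX i)
  have hc1 : 1 ≤ S.card := hne.card_pos
  have hpos : 1 ≤ N' * S.card := Nat.mul_pos hN' hc1
  refine ⟨aeval X H / (∏ i ∈ S, X i) ^ (N + N'), ⟨N + N', e + N' * S.card - 1, ?_, ?_⟩, ?_⟩
  · rw [Nat.cast_sub (by omega)]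
    push_cast
    rw [he]
    ring
  · rw [mul_div_cancel₀ _ (hP _)]
    exact aeval_mem_VV_pow hH
  · rw [mul_div_assoc', ← h10, h2, eq_div_iff (hP _), pow_add]
    ring

/-- division of a cocycle by the linear form -/
theorem divide_cocyc (hS : HSec X u Lc xc) (hX : ∀ i, X i ≠ 0) {m : ℤ} {q : ℕ} (hq : 1 ≤ q)
    {z : Finset ι → L} (hz : Cocyc (VV K X) X m q z)
    (h0 : ∀ c (S : Finset ι), S.card = q → (∀ i ∈ S, xc c i ≠ 0) → Im K X (xc c) (z S) 0) :
    ∃ v, Cocyc (VV K X) X (m - 1) q v ∧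
      ∀ S : Finset ι, S.card = q → z S = (∑ i, u i • X i) * v S := by
  classical
  have hθ : ∑ i, u i • X i ≠ 0 := hS.2.2.1
  have h : ∀ S : Finset ι, ∃ z' : L, S.card = q → (z' ∈ Sec (VV K X) X (m - 1) S ∧
      z S = (∑ i, u i • X i) * z') := by
    intro S
    by_cases hSq : S.card = q
    · obtain ⟨z', h1, h2⟩ := divide hS hX (Finset.card_pos.1 (by omega)) (hz.1 S hSq)
        (fun c hc => h0 c S hSq hc)
      exact ⟨z', fun _ => ⟨h1, h2⟩⟩
    · exact ⟨0, fun h => absurd h hSq⟩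
  choose v hv using h
  refine ⟨v, ⟨fun S hSq => (hv S hSq).1, fun T hT => ?_⟩, fun S hSq => (hv S hSq).2⟩
  have h1 : (∑ i, u i • X i) * dd v T = dd z T := by
    rw [← Pool.Agent.Y340.GS.dd_mul]
    refine Pool.Agent.Y340.GS.dd_congr fun i hi => ?_
    exact ((hv (T.erase i) (by rw [Finset.card_erase_of_mem hi, hT]; rfl)).2).symm
  rw [hz.2 T hT] at h1
  exact (mul_eq_zero.1 h1).resolve_left hθ

/-- lifting a family of cocycles -/
theorem lift_cocyc (hS : HSec X u Lc xc) (hX : ∀ i, X i ≠ 0) (m : ℤ) (q : ℕ) (hq : 1 ≤ q)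
    (hvan : Van (VV K X) X (m - 1) (q + 1)) (y : ∀ c, Finset ι → Lc c)
    (hy : ∀ c (S : Finset ι), S.card = q → (∀ i ∈ S, xc c i ≠ 0) →
      y c S ∈ Sec (VV K (xc c)) (xc c) m S)
    (hyd : ∀ c (T : Finset ι), T.card = q + 1 → (∀ i ∈ T, xc c i ≠ 0) → dd (y c) T = 0) :
    ∃ z : Finset ι → L, Cocyc (VV K X) X m q z ∧
      ∀ c (S : Finset ι), S.card = q → (∀ i ∈ S, xc c i ≠ 0) → Im K X (xc c) (z S) (y c S) := by
  classical
  have hXV : ∀ i, X i ∈ VV K X := fun i => Submodule.subset_span ⟨i, rfl⟩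
  obtain ⟨z, hz, hzi⟩ := lift_coch hS hX m q hq y hy
  have hcard : ∀ {T : Finset ι} {n : ℕ} {i : ι}, T.card = n + 1 → i ∈ T →
      (T.erase i).card = n := fun hT hi => by
    rw [Finset.card_erase_of_mem hi, hT]
    rfl
  have hdz : Cocyc (VV K X) X m (q + 1) (dd z) := by
    refine ⟨fun T hT => ?_, fun T _ => Pool.Agent.Y340.GS.dd_dd_aux T z⟩
    exact Pool.Agent.Y340.GS.sec_dd _ _ hXV (Finset.card_pos.1 (by omega)) z
      fun i hi => hz _ (hcard hT hi)
  have hdi : ∀ c (T : Finset ι), T.card = q + 1 → (∀ i ∈ T, xc c i ≠ 0) →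
      Im K X (xc c) (dd z T) 0 := by
    intro c T hT hc
    rw [← hyd c T hT hc]
    exact Im.dd T fun i hi => hzi c _ (hcard hT hi)
      (fun l hl => hc l (Finset.mem_of_mem_erase hl))
  obtain ⟨v, hv, hzv⟩ := divide_cocyc hS hX (by omega) hdz hdi
  obtain ⟨b, hb, hvb⟩ := hvan v hv
  rw [Nat.add_sub_cancel] at hb
  have hθV : (∑ i, u i • X i) ∈ (VV K X) ^ 1 := by
    rw [pow_one]
    exact Submodule.sum_mem _ fun i _ => Submodule.smul_mem _ _ (hXV i)
  have hθb : ∀ S : Finset ι, S.card = q →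
      (∑ i, u i • X i) * b S ∈ Sec (VV K X) X m S := by
    intro S hSq
    have h1 := Pool.Agent.Y968.GS.sec_mul (VV K X) X (m - 1) S 1 _ _ hθV (hb S hSq)
    have h2 : m - 1 + ((1 : ℕ) : ℤ) = m := by
      push_cast
      ring
    rwa [h2] at h1
  refine ⟨fun S => z S - (∑ i, u i • X i) * b S, ⟨fun S hSq => ?_, fun T hT => ?_⟩, ?_⟩
  · exact Pool.Agent.Y340.GS.sec_sub _ _ hXV (hz S hSq) (hθb S hSq)
  · rw [Pool.Agent.Y340.GS.dd_sub, Pool.Agent.Y340.GS.dd_mul, hzv T hT, hvb T hT, sub_self]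
  · intro c S hSq hc
    obtain ⟨b', -, hb'⟩ := im_sec hc (hb S hSq)
    have h1 : Im K X (xc c) (∑ i, u i • X i) 0 := by
      have h2 := Im.poly (K := K) (X := X) (y := xc c) (∑ i, MvPolynomial.C (u i) * MvPolynomial.X i)
      have h3 : ∀ {A : Type} [CommRing A] [Algebra K A] (f : ι → A),
          aeval f (∑ i, MvPolynomial.C (u i) * MvPolynomial.X i) = ∑ i, u i • f i := by
        intro A _ _ f
        rw [map_sum]
        refine Finset.sum_congr rfl fun i _ => ?_
        rw [map_mul, aeval_C, aeval_X, Algebra.smul_def]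
      rw [h3, h3, hS.2.1 c] at h2
      exact h2
    have h4 := (hzi c S hSq hc).sub (h1.mul hb')
    rwa [zero_mul, sub_zero] at h4

end hsec

section comp

variable {K M ι : Type} [Field K] [Field M] [Algebra K M] [Fintype ι]

theorem VV_sub (y : ι → M) : VV K (fun i : {i // y i ≠ 0} => y i) = VV K y := by
  apply le_antisymm
  · apply Submodule.span_mono
    rintro _ ⟨i, rfl⟩
    exact ⟨i.1, rfl⟩
  · rw [Submodule.span_le]
    rintro _ ⟨i, rfl⟩
    by_cases h : y i = 0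
    · rw [h]
      exact Submodule.zero_mem _
    · exact Submodule.subset_span ⟨⟨i, h⟩, rfl⟩

theorem wv_sub (y : ι → M) [Fintype {i // y i ≠ 0}] (w : ι → ℕ) (e : ℕ) (s : ℤ) :
    WV K y w e s ≤ WV K (fun i : {i // y i ≠ 0} => y i) (fun i => w i) e s := by
  classical
  refine Submodule.span_le.2 ?_
  rintro _ ⟨b, h1, h2, rfl⟩
  by_cases hb : ∃ i, y i = 0 ∧ b i ≠ 0
  · obtain ⟨i, hi, hbi⟩ := hb
    have h3 : mon y b = 0 := Finset.prod_eq_zero (Finset.mem_univ i) (by
      rw [hi, zero_pow hbi])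
    rw [h3]
    exact Submodule.zero_mem _
  · push Not at hb
    have hmem : ∀ i, i ∈ (Finset.univ.filter (fun i => y i ≠ 0)) ↔ y i ≠ 0 := fun i => by simp
    have hsum : ∀ f : ι → ℕ, (∀ i, y i = 0 → f i = 0) →
        ∑ i : {i // y i ≠ 0}, f i = ∑ i, f i := by
      intro f hf
      rw [← Finset.sum_subtype _ hmem f]
      refine Finset.sum_subset (Finset.subset_univ _) fun i _ hi => hf i ?_
      by_contra h
      exact hi ((hmem i).2 h)
    refine Submodule.subset_span ⟨fun i => b i, ?_, ?_, ?_⟩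
    · rw [← h1]
      exact hsum b hb
    · have h4 : wt (fun i : {i // y i ≠ 0} => w i) (fun i => b i) = wt w b :=
        hsum (fun i => w i * b i) fun i hi => by rw [hb i hi, mul_zero]
      rw [h4]
      exact h2
    · unfold mon
      rw [← Finset.prod_subtype _ hmem (fun i => y i ^ b i)]
      refine (Finset.prod_subset (Finset.subset_univ _) fun i _ hi => ?_).symm
      have h5 : y i = 0 := by
        by_contra h
        exact hi ((hmem i).2 h)
      rw [hb i h5, pow_zero]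

variable [LinearOrder ι]

/-- the order embedding of the nonzero coordinates -/
noncomputable def emb (y : ι → M) : {i // y i ≠ 0} ↪o ι := OrderEmbedding.subtype _

theorem wsec_sub (y : ι → M) [Fintype {i // y i ≠ 0}] (w : ι → ℕ) (m s : ℤ)
    (S : Finset {i // y i ≠ 0}) {z : M} (hz : z ∈ WSec K y w m s (S.map (emb y).toEmbedding)) :
    z ∈ WSec K (fun i : {i // y i ≠ 0} => y i) (fun i => w i) m s S := by
  obtain ⟨N, e, he, h⟩ := hz
  rw [Finset.card_map] at he
  rw [Finset.prod_map, Finset.sum_map] at h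
  exact ⟨N, e, he, wv_sub y w _ _ h⟩

theorem sec_sub (y : ι → M) (m : ℤ) (S : Finset {i // y i ≠ 0}) :
    Sec (VV K y) y m (S.map (emb y).toEmbedding) =
      Sec (VV K (fun i : {i // y i ≠ 0} => y i)) (fun i : {i // y i ≠ 0} => y i) m S := by
  rw [Pool.Agent.Y968.GS.sec_map (emb y) (VV K y) y m S, VV_sub]
  rfl

/-- a finset of nonzero coordinates comes from the subtype -/
theorem exists_map (y : ι → M) {S : Finset ι} (hS : ∀ i ∈ S, y i ≠ 0) :
    ∃ S' : Finset {i // y i ≠ 0}, S'.map (emb y).toEmbedding = S := by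
  classical
  exact ⟨S.subtype _, Finset.subtype_map_of_mem hS⟩

/-- extension of a cochain -/
theorem exists_ext (y : ι → M) (b : Finset {i // y i ≠ 0} → M) :
    ∃ b' : Finset ι → M, ∀ S, b' (S.map (emb y).toEmbedding) = b S := by
  classical
  refine ⟨fun S => if h : ∃ S', Finset.map (emb y).toEmbedding S' = S then b h.choose else 0,
    fun S => ?_⟩
  have h : ∃ S', Finset.map (emb y).toEmbedding S' = S.map (emb y).toEmbedding := ⟨S, rfl⟩
  have h2 : h.choose = S := Finset.map_injective _ h.choose_spec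
  show (if h : ∃ S', Finset.map (emb y).toEmbedding S' = S.map (emb y).toEmbedding then
    b h.choose else 0) = b S
  rw [dif_pos h, h2]

end comp

section main

variable {K L ι C : Type} [Field K] [Field L] [Algebra K L] [LinearOrder ι] [Fintype ι]
  {X : ι → L} {u : ι → K} {Lc : C → Type} [∀ c, Field (Lc c)] [∀ c, Algebra K (Lc c)]
  {xc : ∀ c, ι → Lc c}

/-- vanishing for the components -/
theorem comp_van (hS : HSec X u Lc xc) (hX : ∀ i, X i ≠ 0) (c0 : C) (m : ℤ) (q : ℕ) (hq : 2 ≤ q)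
    (hv1 : Van (VV K X) X m q) (hv2 : Van (VV K X) X (m - 1) (q + 1)) :
    Van (VV K (fun i : {i // xc c0 i ≠ 0} => xc c0 i)) (fun i : {i // xc c0 i ≠ 0} => xc c0 i)
      m q := by
  classical
  intro y hy
  obtain ⟨ys, hys⟩ := exists_ext (xc c0) y
  -- the family
  have hysec : ∀ S : Finset ι, S.card = q → (∀ i ∈ S, xc c0 i ≠ 0) →
      ys S ∈ Sec (VV K (xc c0)) (xc c0) m S := by
    intro S hSq hc
    obtain ⟨S', rfl⟩ := exists_map (xc c0) hc
    rw [hys, sec_sub]
    exact hy.1 S' (by rw [← hSq, Finset.card_map])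
  have hyd : ∀ T : Finset ι, T.card = q + 1 → (∀ i ∈ T, xc c0 i ≠ 0) → dd ys T = 0 := by
    intro T hT hc
    obtain ⟨T', rfl⟩ := exists_map (xc c0) hc
    rw [← Pool.Agent.Y968.GS.dd_map (emb (xc c0)) ys T']
    have h1 : (fun S => ys (Finset.map (emb (xc c0)).toEmbedding S)) = y := funext hys
    rw [h1]
    exact hy.2 T' (by rw [← hT, Finset.card_map])
  obtain ⟨z, hz, hzi⟩ := lift_cocyc hS hX m q (by omega) hv2
    (Function.update (fun c _ => (0 : Lc c)) c0 ys)
    (by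
      intro c S hSq hc
      by_cases h : c = c0
      · subst h
        rw [Function.update_self]
        exact hysec S hSq hc
      · rw [Function.update_of_ne h]
        exact Pool.Agent.Y340.GS.sec_zero _ _ (Finset.card_pos.1 (by omega)))
    (by
      intro c T hT hc
      by_cases h : c = c0
      · subst h
        rw [Function.update_self]
        exact hyd T hT hc
      · rw [Function.update_of_ne h]
        simp [dd])
  obtain ⟨b, hb, hzb⟩ := hv1 z hz
  have hβ : ∀ S : Finset {i // xc c0 i ≠ 0}, ∃ β : Lc c0, S.card = q - 1 →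
      (β ∈ Sec (VV K (xc c0)) (xc c0) m (S.map (emb (xc c0)).toEmbedding) ∧
        Im K X (xc c0) (b (S.map (emb (xc c0)).toEmbedding)) β) := by
    intro S
    by_cases hSq : S.card = q - 1
    · obtain ⟨β, h1, h2⟩ := im_sec (y := xc c0) (S := S.map (emb (xc c0)).toEmbedding)
        (z := b (S.map (emb (xc c0)).toEmbedding)) (by
          intro i hi
          obtain ⟨i', -, rfl⟩ := Finset.mem_map.1 hi
          exact i'.2) (hb _ (by rw [Finset.card_map, hSq]))
      exact ⟨β, fun _ => ⟨h1, h2⟩⟩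
    · exact ⟨0, fun h => absurd h hSq⟩
  choose β hβ using hβ
  refine ⟨β, fun S hSq => ?_, fun S hSq => ?_⟩
  · rw [← sec_sub]
    exact (hβ S hSq).1
  · have hc : ∀ i ∈ S.map (emb (xc c0)).toEmbedding, xc c0 i ≠ 0 := by
      intro i hi
      obtain ⟨i', -, rfl⟩ := Finset.mem_map.1 hi
      exact i'.2
    have hcard : (S.map (emb (xc c0)).toEmbedding).card = q := by rw [Finset.card_map, hSq]
    have h1 := hzi c0 _ hcard hc
    rw [Function.update_self, hys, hzb _ hcard] at h1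
    have h2 : Im K X (xc c0) (dd b (S.map (emb (xc c0)).toEmbedding)) (dd β S) := by
      rw [← Pool.Agent.Y968.GS.dd_map (emb (xc c0)) b S]
      refine Im.sum S _ _ fun i hi => (((hβ (S.erase i) ?_).2).zsmul _)
      rw [Finset.card_erase_of_mem hi, hSq]
    exact h1.unique (hS.1 c0) h2

end main

/-- the induction step -/
theorem hypst : S_BER → S_BCH → S_HYPST := by
  intro hBER hBCH D hInt k L ι _ _ _ _ _ _ p x w hp hk hM hsm htr hw hvan j hj2 hjD c hc
  classical
  obtain ⟨k', _, _, _, L', _, _, _, _, _, _, u, C, _, Lc, _, _, xc, hdisj, hM', hS, hcomp⟩ :=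
    hBER k L ι x D hM hsm htr (by omega)
  have hk' : CharP k' p := charP_of_injective_algebraMap (algebraMap k k').injective p
  have hXV : ∀ i, algebraMap L L' (x i) ∈ VV k' (fun i => algebraMap L L' (x i)) :=
    fun i => Submodule.subset_span ⟨i, rfl⟩
  have hX : ∀ i, algebraMap L L' (x i) ≠ 0 := hM'.ne
  have hvan' : ∀ m : ℤ, m < 0 → ∀ q : ℕ, 2 ≤ q → q < D →
      Van (VV k' (fun i => algebraMap L L' (x i))) (fun i => algebraMap L L' (x i)) m q :=
    fun m hm q hq hqD => van_ext hBCH x m q hdisj hM.ne hq (hvan m hm q hq hqD)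
  -- the cocycle over the large field
  have hz0 : Cocyc (VV k' (fun i => algebraMap L L' (x i))) (fun i => algebraMap L L' (x i)) 0 j
      (fun S => algebraMap L L' (c S)) := by
    refine ⟨fun S hSj => alg_sec x (Pool.Agent.Y978.GS.WSec_sub_Sec (hc.1 S hSj)), fun T hT => ?_⟩
    rw [← alg_dd, hc.2 T hT, map_zero]
  -- images on the components
  have hyc : ∀ (c0 : C) (S : Finset ι), ∃ y : Lc c0, S.card = j → (∀ i ∈ S, xc c0 i ≠ 0) →
      (y ∈ WSec k' (xc c0) w 0 0 S ∧ Im k' (fun i => algebraMap L L' (x i)) (xc c0)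
        (algebraMap L L' (c S)) y) := by
    intro c0 S
    by_cases h : S.card = j ∧ ∀ i ∈ S, xc c0 i ≠ 0
    · obtain ⟨y, h1, h2⟩ := im_wsec (K := k') (X := fun i => algebraMap L L' (x i)) (y := xc c0)
        (w := w) (m := 0) (s := 0) h.2
        (alg_wsec (k := k) (k1 := k') x w (hc.1 S h.1))
      exact ⟨y, fun _ _ => ⟨h1, h2⟩⟩
    · exact ⟨0, fun h1 h2 => absurd ⟨h1, h2⟩ h⟩
  choose y hy using hyc
  -- coboundaries on the components
  have hb : ∀ c0 : C, ∃ b : Finset ι → Lc c0,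
      (∀ S : Finset ι, S.card = j - 1 → (∀ i ∈ S, xc c0 i ≠ 0) →
        b S ∈ Sec (VV k' (xc c0)) (xc c0) 0 S) ∧
      ∀ S : Finset ι, S.card = j → (∀ i ∈ S, xc c0 i ≠ 0) → y c0 S = dd b S := by
    intro c0
    obtain ⟨hMc, hsc, D', hD', htrc⟩ := hcomp c0
    have hmapne : ∀ S : Finset {i // xc c0 i ≠ 0}, ∀ i ∈ S.map (emb (xc c0)).toEmbedding,
        xc c0 i ≠ 0 := by
      intro S i hi
      obtain ⟨i', -, rfl⟩ := Finset.mem_map.1 hi
      exact i'.2
    have hW : WCocyc k' (fun i : {i // xc c0 i ≠ 0} => xc c0 i) (fun i => w i) 0 0 j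
        (fun S => y c0 (S.map (emb (xc c0)).toEmbedding)) := by
      refine ⟨fun S hSj => ?_, fun T hT => ?_⟩
      · exact wsec_sub (xc c0) w 0 0 S
          (hy c0 _ (by rw [Finset.card_map, hSj]) (hmapne S)).1
      · rw [Pool.Agent.Y968.GS.dd_map]
        have h1 : Im k' (fun i => algebraMap L L' (x i)) (xc c0)
            (dd (fun S => algebraMap L L' (c S)) (T.map (emb (xc c0)).toEmbedding))
            (dd (y c0) (T.map (emb (xc c0)).toEmbedding)) := by
          refine Im.dd _ fun i hi => (hy c0 _ ?_ fun l hl => hmapne T l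
            (Finset.mem_of_mem_erase hl)).2
          rw [Finset.card_erase_of_mem hi, Finset.card_map, hT]
          rfl
        rw [hz0.2 _ (by rw [Finset.card_map, hT])] at h1
        exact h1.unique (hS.1 c0) Im.zero
    obtain ⟨bI, hbI1, hbI2⟩ := hInt D' hD' k' (Lc c0) {i // xc c0 i ≠ 0} p
      (fun i : {i // xc c0 i ≠ 0} => xc c0 i) (fun i => w i) hp hk' hMc hsc htrc
      (fun a b hab => Subtype.ext (hw hab))
      (fun m hm q hq hqD => comp_van hS hX c0 m q hq (hvan' m hm q hq (by omega))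
        (hvan' (m - 1) (by omega) (q + 1) (by omega) (by omega))) j hj2 _ hW
    obtain ⟨b, hbe⟩ := exists_ext (xc c0) bI
    refine ⟨b, fun S hSj hcS => ?_, fun S hSj hcS => ?_⟩
    · obtain ⟨S', rfl⟩ := exists_map (xc c0) hcS
      rw [hbe, sec_sub]
      exact hbI1 S' (by rw [← hSj, Finset.card_map])
    · obtain ⟨S', rfl⟩ := exists_map (xc c0) hcS
      rw [← Pool.Agent.Y968.GS.dd_map (emb (xc c0)) b S']
      have h1 : (fun S => b (Finset.map (emb (xc c0)).toEmbedding S)) = bI := funext hbe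
      rw [h1]
      exact hbI2 S' (by rw [← hSj, Finset.card_map])
  choose b hb1 hb2 using hb
  -- lift
  obtain ⟨bt, hbt, hbti⟩ := lift_coch hS hX 0 (j - 1) (by omega) b hb1
  have hdbt : ∀ S : Finset ι, S.card = j → dd bt S ∈
      Sec (VV k' (fun i => algebraMap L L' (x i))) (fun i => algebraMap L L' (x i)) 0 S := by
    intro S hSj
    refine Pool.Agent.Y340.GS.sec_dd _ _ hXV (Finset.card_pos.1 (by omega)) bt fun i hi => ?_
    exact hbt _ (by rw [Finset.card_erase_of_mem hi, hSj])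
  have hz1 : Cocyc (VV k' (fun i => algebraMap L L' (x i))) (fun i => algebraMap L L' (x i)) 0 j
      (fun S => algebraMap L L' (c S) - dd bt S) := by
    refine ⟨fun S hSj => Pool.Agent.Y340.GS.sec_sub _ _ hXV (hz0.1 S hSj) (hdbt S hSj),
      fun T hT => ?_⟩
    rw [Pool.Agent.Y340.GS.dd_sub, hz0.2 T hT, Pool.Agent.Y340.GS.dd_dd_aux, sub_self]
  obtain ⟨v, hv, hzv⟩ := divide_cocyc hS hX (by omega) hz1 (by
    intro c0 S hSj hcS
    have h1 := (hy c0 S hSj hcS).2
    have h2 : Im k' (fun i => algebraMap L L' (x i)) (xc c0) (dd bt S) (dd (b c0) S) :=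
      Im.dd S fun i hi => hbti c0 _ (by rw [Finset.card_erase_of_mem hi, hSj])
        fun l hl => hcS l (Finset.mem_of_mem_erase hl)
    rw [hb2 c0 S hSj hcS] at h1
    have h3 := h1.sub h2
    rwa [sub_self] at h3)
  obtain ⟨b2, hb2', hvb2⟩ := hvan' (0 - 1) (by omega) j hj2 hjD v hv
  have hθV : (∑ i, u i • algebraMap L L' (x i)) ∈
      (VV k' (fun i => algebraMap L L' (x i))) ^ 1 := by
    rw [pow_one]
    exact Submodule.sum_mem _ fun i _ => Submodule.smul_mem _ _ (hXV i)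
  have hcob : Cobd (VV k' (fun i => algebraMap L L' (x i))) (fun i => algebraMap L L' (x i)) 0 j
      (fun S => ∑ i : Fin 1, (fun _ => (1 : k')) i • algebraMap L L' ((fun _ => c) i S)) := by
    refine ⟨fun S => bt S + (∑ i, u i • algebraMap L L' (x i)) * b2 S, fun S hSj => ?_,
      fun S hSj => ?_⟩
    · have h1 := Pool.Agent.Y968.GS.sec_mul _ _ (0 - 1) S 1 _ _ hθV (hb2' S hSj)
      have h2 : (0 : ℤ) - 1 + ((1 : ℕ) : ℤ) = 0 := by norm_num
      rw [h2] at h1
      exact Pool.Agent.Y340.GS.sec_add _ _ hXV (hbt S hSj) h1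
    · rw [Pool.Agent.Y340.GS.dd_add, Pool.Agent.Y340.GS.dd_mul, ← hvb2 S hSj, ← hzv S hSj]
      simp
  obtain ⟨-, h2⟩ := hBCH k k' L L' ι x 0 j hdisj hM.ne (by omega)
  refine h2 hj2 1 (fun _ => 1) (fun _ => c) ?_ (fun _ => ?_) hcob 0
  · exact LinearIndependent.of_subsingleton 0 one_ne_zero
  · exact ⟨fun S hSj => Pool.Agent.Y978.GS.WSec_sub_Sec (hc.1 S hSj), hc.2⟩

end Pool.Agent.Y864.GS
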